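import Mathlib

/-! Multiplicative independence of the arguments of `2 + i` and `3 + 2 i`. -/

set_option autoImplicit false

namespace Pool.Agent.H17RL

open GaussianInt

/-- the ring homomorphism `ℤ[i] → ℤ/p` with `i ↦ r` -/
noncomputable def chi (p : ℕ) (r : ZMod p) (h : r * r = -1) : GaussianInt →+* ZMod p :=
  Zsqrtd.lift ⟨r, by rw [h]; push_cast; ring⟩

theorem chi_apply (p : ℕ) (r : ZMod p) (h : r * r = -1) (x : GaussianInt) :
    chi p r h x = x.re + x.im * r := by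
  unfold chi
  simp [Zsqrtd.lift]

/-- `x ^ m` or `(conj x) ^ |m|` -/
def pw (x : GaussianInt) (m : ℤ) : GaussianInt := if 0 ≤ m then x ^ m.toNat else (star x) ^ (-m).toNat

theorem pw_zero (x : GaussianInt) : pw x 0 = 1 := by simp [pw]

theorem pw_eq (x : GaussianInt) (hx : x ≠ 0) (m : ℤ) :
    ∃ q : ℝ, 0 < q ∧ (x : ℂ) ^ m = (q : ℂ) * (pw x m : ℂ) := by
  unfold pw
  by_cases h : 0 ≤ m
  · refine ⟨1, one_pos, ?_⟩
    rw [if_pos h]
    obtain ⟨n, rfl⟩ := Int.eq_ofNat_of_zero_le h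
    simp
  · obtain ⟨n, hn⟩ : ∃ n : ℕ, m = -n := ⟨(-m).toNat, by omega⟩
    subst hn
    have hx' : (x : ℂ) ≠ 0 := fun hc => hx (by
      rwa [GaussianInt.toComplex_eq_zero] at hc)
    refine ⟨(Complex.normSq (x : ℂ))⁻¹ ^ n, pow_pos (inv_pos.2 (Complex.normSq_pos.2 hx')) _, ?_⟩
    rw [if_neg h]
    have e1 : (-(-(n : ℤ))).toNat = n := by omega
    rw [e1, zpow_neg, zpow_natCast]
    have e2 : ((star x : GaussianInt) : ℂ) = (starRingEnd ℂ) (x : ℂ) := by
      rw [GaussianInt.toComplex_star]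
    rw [map_pow, e2, Complex.ofReal_pow, ← mul_pow, ← inv_pow, Complex.inv_def]
    congr 1
    rw [mul_comm, Complex.ofReal_inv]

theorem chi_pw {p : ℕ} [Fact p.Prime] {r : ZMod p} (h : r * r = -1) (x : GaussianInt)
    (h1 : chi p r h x ≠ 0) (h2 : chi p r h (star x) ≠ 0) (m : ℤ) : chi p r h (pw x m) ≠ 0 := by
  unfold pw
  split_ifs
  · rw [map_pow]; exact pow_ne_zero _ h1
  · rw [map_pow]; exact pow_ne_zero _ h2

theorem real_chi {p : ℕ} {r r' : ZMod p} (h : r * r = -1) (h' : r' * r' = -1) {x : GaussianInt}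
    (hx : x.im = 0) : chi p r h x = chi p r' h' x := by
  rw [chi_apply, chi_apply, hx]
  simp

/-- if `x` is divisible by a prime over `p` and its conjugate is not, then powers of `x` are not
real modulo units at `p` -/
theorem key {p : ℕ} [Fact p.Prime] {r r' : ZMod p} (h : r * r = -1) (h' : r' * r' = -1)
    {x y : GaussianInt} (h1 : chi p r h x = 0) (h2 : chi p r' h' x ≠ 0)
    (h3 : chi p r h (star x) ≠ 0) (h4 : chi p r' h' (star x) = 0)
    (h5 : chi p r h y ≠ 0) (h6 : chi p r' h' y ≠ 0) {m : ℤ} (him : (pw x m * y).im = 0) :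
    m = 0 := by
  by_contra hm
  have e := real_chi h h' him
  rw [map_mul, map_mul] at e
  unfold pw at e
  split_ifs at e with hc
  · obtain ⟨k, hk⟩ : ∃ k, m.toNat = k + 1 := ⟨m.toNat - 1, by omega⟩
    rw [hk, map_pow, map_pow, h1, zero_pow (by omega), zero_mul] at e
    exact mul_ne_zero (pow_ne_zero _ h2) h6 e.symm
  · obtain ⟨k, hk⟩ : ∃ k, (-m).toNat = k + 1 := ⟨(-m).toNat - 1, by omega⟩
    rw [hk, map_pow, map_pow, h4, zero_pow (by omega), zero_mul] at e
    exact mul_ne_zero (pow_ne_zero _ h3) h5 e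

/-- `2 + i` -/
def z1 : GaussianInt := ⟨2, 1⟩

/-- `3 + 2 i` -/
def z2 : GaussianInt := ⟨3, 2⟩

theorem z1_ne : z1 ≠ 0 := by decide

theorem z2_ne : z2 ≠ 0 := by decide

instance fact5 : Fact (Nat.Prime 5) := ⟨by norm_num⟩

instance fact13 : Fact (Nat.Prime 13) := ⟨by norm_num⟩

theorem indep {m n : ℤ} (h : ((z1 : ℂ) ^ m * (z2 : ℂ) ^ n).im = 0) : m = 0 ∧ n = 0 := by
  obtain ⟨q, hq, e1⟩ := pw_eq z1 z1_ne m
  obtain ⟨q', hq', e2⟩ := pw_eq z2 z2_ne n
  have h1 : (pw z1 m * pw z2 n).im = 0 := by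
    have e3 : (z1 : ℂ) ^ m * (z2 : ℂ) ^ n =
        ((q * q' : ℝ) : ℂ) * ((pw z1 m * pw z2 n : GaussianInt) : ℂ) := by
      rw [e1, e2, GaussianInt.toComplex_mul]
      push_cast
      ring
    rw [e3, Complex.im_ofReal_mul, ← GaussianInt.intCast_im] at h
    have h2 := (mul_eq_zero.1 h).resolve_left (mul_pos hq hq').ne'
    exact_mod_cast h2
  have a1 : (3 : ZMod 5) * 3 = -1 := by decide
  have a2 : (2 : ZMod 5) * 2 = -1 := by decide
  have b1 : (5 : ZMod 13) * 5 = -1 := by decide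
  have b2 : (8 : ZMod 13) * 8 = -1 := by decide
  have hm : m = 0 := by
    refine key a1 a2 (x := z1) (y := pw z2 n) ?_ ?_ ?_ ?_ ?_ ?_ h1
    · rw [chi_apply]; decide
    · rw [chi_apply]; decide
    · rw [chi_apply]; decide
    · rw [chi_apply]; decide
    · apply chi_pw
      · rw [chi_apply]; decide
      · rw [chi_apply]; decide
    · apply chi_pw
      · rw [chi_apply]; decide
      · rw [chi_apply]; decide
  subst hm
  refine ⟨rfl, ?_⟩
  rw [pw_zero, one_mul, ← mul_one (pw z2 n)] at h1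
  refine key b1 b2 (x := z2) (y := 1) ?_ ?_ ?_ ?_ ?_ ?_ h1
  · rw [chi_apply]; decide
  · rw [chi_apply]; decide
  · rw [chi_apply]; decide
  · rw [chi_apply]; decide
  · rw [map_one]; decide
  · rw [map_one]; decide

end Pool.Agent.H17RL
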