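import Mathlib

/-! Products of rotations `[c, -d; d, c]` and `[X c, -X² d; d, X c]` are never diagonal with entries
of equal squares. -/

set_option autoImplicit false

namespace Pool.Agent.H17RL

open Polynomial

/-- the matrix of a letter -/
noncomputable def lm (b : Bool) (x : GaussianInt) : Matrix (Fin 2) (Fin 2) ℤ[X] :=
  if b then !![C x.re, -C x.im; C x.im, C x.re]
  else !![X * C x.re, -X ^ 2 * C x.im; C x.im, X * C x.re]

/-- the matrix of a word -/
noncomputable def wm (l : List (Bool × GaussianInt)) : Matrix (Fin 2) (Fin 2) ℤ[X] :=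
  (l.map fun p => lm p.1 p.2).prod

/-- alternating words in letters which are not real -/
def Red (l : List (Bool × GaussianInt)) : Prop :=
  l.IsChain (fun p q => p.1 ≠ q.1) ∧ ∀ p ∈ l, p.2.im ≠ 0

/-- the row of a letter type -/
def rw' (b : Bool) : Fin 2 := if b then 1 else 0

/-- the column of a letter type -/
def cl' (b : Bool) : Fin 2 := if b then 0 else 1

/-- the leading coefficients of a word: `N` bounds the degrees, `i` is the type of the first and `j`
the type of the last letter -/
def Lead (W : Matrix (Fin 2) (Fin 2) ℤ[X]) (N : ℕ) (i j : Bool) : Prop :=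
  (∀ a b, (W a b).natDegree ≤ N) ∧ (W (rw' i) (cl' j)).coeff N ≠ 0 ∧
    (i = false → ∀ b, (W 1 b).coeff N = 0) ∧ (j = false → ∀ a, (W a 0).coeff N = 0)

theorem lead_letter (b : Bool) (x : GaussianInt) (hx : x.im ≠ 0) :
    Lead (lm b x) (if b then 0 else 2) b b := by
  cases b with
  | true =>
    refine ⟨?_, ?_, ?_, ?_⟩
    · intro a b
      fin_cases a <;> fin_cases b <;> simp [lm]
    · simpa [lm, rw', cl'] using hx
    · intro h; cases h
    · intro h; cases h
  | false =>
    have e1 : ∀ z : ℤ, (X * C z : ℤ[X]).natDegree ≤ 2 := fun z =>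
      (natDegree_mul_le).trans (by simp [natDegree_X])
    have e2 : ∀ z : ℤ, (-X ^ 2 * C z : ℤ[X]).natDegree ≤ 2 := fun z =>
      (natDegree_mul_le).trans (by simp)
    have e3 : ∀ z : ℤ, (X * C z : ℤ[X]).coeff 2 = 0 := fun z => by
      rw [coeff_mul_C, coeff_X]; norm_num
    have e4 : ∀ z : ℤ, (C z : ℤ[X]).coeff 2 = 0 := fun z => by
      rw [coeff_C]; norm_num
    have e5 : ∀ z : ℤ, (-X ^ 2 * C z : ℤ[X]).coeff 2 = -z := fun z => by
      rw [coeff_mul_C, coeff_neg, coeff_X_pow]; norm_num
    refine ⟨?_, ?_, ?_, ?_⟩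
    · intro a b
      fin_cases a <;> fin_cases b
      · simpa [lm] using e1 x.re
      · simpa [lm] using e2 x.im
      · simp [lm]
      · simpa [lm] using e1 x.re
    · have : (lm false x (rw' false) (cl' false)) = -X ^ 2 * C x.im := by simp [lm, rw', cl']
      rw [this]
      simp only [Bool.false_eq_true, if_false]
      rw [e5]
      simpa using hx
    · intro _ b
      simp only [Bool.false_eq_true, if_false]
      fin_cases b
      · simpa [lm] using e4 x.im
      · simpa [lm] using e3 x.re
    · intro _ a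
      simp only [Bool.false_eq_true, if_false]
      fin_cases a
      · simpa [lm] using e3 x.re
      · simpa [lm] using e4 x.im

theorem Lead.mul {W W' : Matrix (Fin 2) (Fin 2) ℤ[X]} {N N' : ℕ} {i j k l : Bool}
    (h : Lead W N i j) (h' : Lead W' N' k l) (hjk : j ≠ k) : Lead (W * W') (N + N') i l := by
  obtain ⟨h1, h2, h3, h4⟩ := h
  obtain ⟨h1', h2', h3', h4'⟩ := h'
  have hc : ∀ a b, ((W * W') a b).coeff (N + N') =
      (W a 0).coeff N * (W' 0 b).coeff N' + (W a 1).coeff N * (W' 1 b).coeff N' := by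
    intro a b
    rw [Matrix.mul_apply, Fin.sum_univ_two, coeff_add,
      coeff_mul_add_eq_of_natDegree_le (h1 _ _) (h1' _ _), coeff_mul_add_eq_of_natDegree_le (h1 _ _) (h1' _ _)]
  refine ⟨?_, ?_, ?_, ?_⟩
  · intro a b
    rw [Matrix.mul_apply, Fin.sum_univ_two]
    refine (natDegree_add_le _ _).trans (max_le ?_ ?_)
    · exact natDegree_mul_le.trans (add_le_add (h1 _ _) (h1' _ _))
    · exact natDegree_mul_le.trans (add_le_add (h1 _ _) (h1' _ _))
  · rw [hc]
    cases j with
    | true =>
      have hk : k = false := by cases k; rfl; exact absurd rfl hjk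
      subst hk
      rw [h3' rfl, mul_zero, add_zero]
      exact mul_ne_zero h2 h2'
    | false =>
      have hk : k = true := by cases k; exact absurd rfl hjk; rfl
      subst hk
      rw [h4 rfl, zero_mul, zero_add]
      exact mul_ne_zero h2 h2'
  · intro hi b
    rw [hc, h3 hi, h3 hi, zero_mul, zero_mul, add_zero]
  · intro hl a
    rw [hc, h4' hl, h4' hl, mul_zero, mul_zero, add_zero]

theorem lead_word (p : Bool × GaussianInt) (l : List (Bool × GaussianInt)) (h : Red (p :: l)) :
    ∃ (N : ℕ) (j : Bool), Lead (wm (p :: l)) N p.1 j := by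
  induction l generalizing p with
  | nil =>
    have e : wm [p] = lm p.1 p.2 := by simp [wm]
    rw [e]
    refine ⟨if p.1 then 0 else 2, p.1, ?_⟩
    exact lead_letter p.1 p.2 (h.2 p (by simp))
  | cons q l ih =>
    have h1 := List.isChain_cons_cons.1 h.1
    obtain ⟨N, j, hN⟩ := ih q ⟨h1.2, fun x hx => h.2 x (List.mem_cons_of_mem _ hx)⟩
    have e : wm (p :: q :: l) = lm p.1 p.2 * wm (q :: l) := by simp [wm]
    rw [e]
    exact ⟨_, j, (lead_letter p.1 p.2 (h.2 p (by simp))).mul hN h1.1⟩

/-- the matrix of a nonempty reduced word is not diagonal with entries of equal squares -/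
theorem not_diag (l : List (Bool × GaussianInt)) (h : Red l) (hl : l ≠ []) :
    ¬ (wm l 0 1 = 0 ∧ wm l 1 0 = 0 ∧ wm l 0 0 ^ 2 = wm l 1 1 ^ 2) := by
  obtain ⟨p, l', rfl⟩ := List.exists_cons_of_ne_nil hl
  obtain ⟨N, j, h1, h2, h3, h4⟩ := lead_word p l' h
  rintro ⟨e1, e2, e3⟩
  have e4 : ((wm (p :: l') 0 0).coeff N) ^ 2 = ((wm (p :: l') 1 1).coeff N) ^ 2 := by
    have := congrArg (fun f => f.coeff (N + N)) e3
    simp only [pow_two] at this
    rw [coeff_mul_add_eq_of_natDegree_le (h1 _ _) (h1 _ _), coeff_mul_add_eq_of_natDegree_le (h1 _ _) (h1 _ _)]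
      at this
    rw [pow_two, pow_two, this]
  rcases hp : p.1 with _ | _ <;> rcases hj : j with _ | _ <;> rw [hp, hj] at h2 <;>
    simp only [rw', cl', Bool.false_eq_true, if_false, if_true] at h2
  · rw [e1] at h2; simp at h2
  · have := h3 hp 1
    rw [this] at e4
    apply h2
    simpa using e4
  · have := h4 hj 0
    rw [this] at e4
    apply h2
    have e5 : ((wm (p :: l') 1 1).coeff N) ^ 2 = 0 := by rw [← e4]; norm_num
    simpa using e5
  · rw [e2] at h2; simp at h2

end Pool.Agent.H17RL
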