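import Mathlib

/-! Rigidity of free actions of `ℤ²` under finite perturbations. -/

set_option autoImplicit false

namespace Pool.Agent.H17RL

open Equiv Set

variable {Y : Type*}

theorem inv_apply (f : Perm Y) (y : Y) : f⁻¹ (f y) = y := f.symm_apply_apply y

theorem apply_inv (f : Perm Y) (y : Y) : f (f⁻¹ y) = y := f.apply_symm_apply y

/-- two permutations agree off a finite set -/
def Near (f g : Perm Y) : Prop := {y | f y ≠ g y}.Finite

theorem Near.mul {f g f' g' : Perm Y} (h : Near f g) (h' : Near f' g') : Near (f * f') (g * g') := by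
  have h1 : {y | f (f' y) ≠ g (f' y)}.Finite := by
    have := h.preimage (f := f') (f'.injective.injOn)
    exact this
  refine (h'.union h1).subset ?_
  intro y hy
  by_contra hcon
  simp only [mem_union, mem_ofPred_eq, not_or, not_not] at hcon
  apply hy
  change f (f' y) = g (g' y)
  rw [hcon.2, hcon.1]

theorem Near.inv {f g : Perm Y} (h : Near f g) : Near f⁻¹ g⁻¹ := by
  have h1 : (g '' {y | f y ≠ g y}).Finite := h.image _
  refine h1.subset ?_
  intro y hy
  refine ⟨g⁻¹ y, ?_, by simp⟩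
  intro h2
  apply hy
  rw [apply_inv] at h2
  rw [← h2, inv_apply, h2]

theorem Near.symm {f g : Perm Y} (h : Near f g) : Near g f := by
  refine h.subset ?_
  intro y hy h1
  exact hy h1.symm

theorem Near.trans {f g k : Perm Y} (h : Near f g) (h' : Near g k) : Near f k := by
  refine (h.union h').subset ?_
  intro y hy
  by_contra hcon
  simp only [mem_union, mem_ofPred_eq, not_or, not_not] at hcon
  exact hy (hcon.1.trans hcon.2)

/-- `t`, `g` commute and generate a freely acting `ℤ²` -/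
structure Free2 (t g : Perm Y) : Prop where
  comm : t * g = g * t
  free : ∀ (m n : ℤ) (y : Y), (t ^ m * g ^ n) y = y → m = 0 ∧ n = 0

theorem Free2.cm {t g : Perm Y} (h : Free2 t g) (m n : ℤ) : t ^ m * g ^ n = g ^ n * t ^ m :=
  ((show Commute t g from h.comm).zpow_zpow m n)

theorem Free2.inj {t g : Perm Y} (h : Free2 t g) {m n m' n' : ℤ} {y : Y}
    (he : (t ^ m * g ^ n) y = (t ^ m' * g ^ n') y) : m = m' ∧ n = n' := by
  have h1 : (t ^ (m - m') * g ^ (n - n')) y = y := by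
    have h2 : t ^ (m - m') * g ^ (n - n') = (t ^ m' * g ^ n')⁻¹ * (t ^ m * g ^ n) := by
      have c1 := h.cm m' n'
      have c3 : Commute (t ^ m) (g ^ n) := h.cm m n
      have c4 : Commute (g ^ (-n')) (t ^ (-m')) := (h.cm (-m') (-n')).symm
      have c5 : Commute (g ^ (-n')) (t ^ m) := (h.cm m (-n')).symm
      rw [mul_inv_rev, ← zpow_neg, ← zpow_neg, c4.eq, mul_assoc, ← mul_assoc (g ^ (-n')), c5.eq,
        mul_assoc (t ^ m), ← mul_assoc, ← zpow_add, ← zpow_add]
      congr 2 <;> ring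
    rw [h2, Perm.mul_apply, he, inv_apply]
  obtain ⟨h3, h4⟩ := h.free _ _ _ h1
  exact ⟨by linarith, by linarith⟩

section main

variable {t g τ γ : Perm Y}

/-- the orbit visits a finite set finitely often -/
theorem orbit_fin (h : Free2 t g) {E : Set Y} (hE : E.Finite) (y : Y) :
    {p : ℤ × ℤ | (t ^ p.1 * g ^ p.2) y ∈ E}.Finite := by
  have := hE.preimage (f := fun p : ℤ × ℤ => (t ^ p.1 * g ^ p.2) y) (by
    intro p _ q _ hpq
    obtain ⟨h1, h2⟩ := h.inj hpq
    exact Prod.ext h1 h2)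
  exact this

theorem orbit_g (h : Free2 t g) {E : Set Y} (hE : E.Finite) (y : Y) :
    ∃ N : ℕ, ∀ m : ℕ, N ≤ m → (g ^ m) y ∉ E := by
  have h1 := orbit_fin h hE y
  have h2 : {m : ℕ | (g ^ m) y ∈ E}.Finite := by
    have := h1.preimage (f := fun m : ℕ => ((0 : ℤ), (m : ℤ))) (by
      intro a _ b _ hab
      simpa using hab)
    refine this.subset ?_
    intro m hm
    change (t ^ (0 : ℤ) * g ^ (m : ℤ)) y ∈ E
    rw [zpow_zero, one_mul, zpow_natCast]
    exact hm
  obtain ⟨B, hB⟩ := h2.bddAbove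
  refine ⟨B + 1, fun m hm hc => ?_⟩
  have := hB hc
  omega

theorem orbit_t (h : Free2 t g) {E : Set Y} (hE : E.Finite) (y : Y) :
    {k : ℤ | (t ^ k) y ∈ E}.Finite := by
  have h1 := orbit_fin h hE y
  have := h1.preimage (f := fun m : ℤ => (m, (0 : ℤ))) (by
    intro a _ b _ hab
    simpa using hab)
  refine this.subset ?_
  intro m hm
  change (t ^ (m : ℤ) * g ^ (0 : ℤ)) y ∈ E
  rw [zpow_zero, mul_one]
  exact hm

/-- eventually constant sequence -/
theorem exists_phi (h : Free2 t g) (hγ : Near γ g) (y : Y) :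
    ∃ (z : Y) (N : ℕ), ∀ m : ℕ, N ≤ m → (γ ^ m)⁻¹ ((g ^ m) y) = z := by
  obtain ⟨N, hN⟩ := orbit_g h hγ y
  refine ⟨(γ ^ N)⁻¹ ((g ^ N) y), N, fun m hm => ?_⟩
  induction m, hm using Nat.le_induction with
  | base => rfl
  | succ m hm ih =>
    have h1 : γ ((g ^ m) y) = g ((g ^ m) y) := by
      by_contra hc
      exact hN m hm hc
    rw [← ih, pow_succ', pow_succ', mul_inv_rev, Perm.mul_apply, Perm.mul_apply, ← h1,
      inv_apply]

/-- the intertwining map -/
noncomputable def phi (h : Free2 t g) (hγ : Near γ g) (y : Y) : Y := (exists_phi h hγ y).choose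

theorem phi_spec (h : Free2 t g) (hγ : Near γ g) (y : Y) :
    ∃ N : ℕ, ∀ m : ℕ, N ≤ m → (γ ^ m)⁻¹ ((g ^ m) y) = phi h hγ y := (exists_phi h hγ y).choose_spec

theorem phi_inj (h : Free2 t g) (hγ : Near γ g) : Function.Injective (phi h hγ) := by
  intro y z hyz
  obtain ⟨N, hN⟩ := phi_spec h hγ y
  obtain ⟨N', hN'⟩ := phi_spec h hγ z
  have h1 := hN (max N N') (le_max_left _ _)
  have h2 := hN' (max N N') (le_max_right _ _)
  rw [hyz, ← h2] at h1
  exact (g ^ max N N').injective ((γ ^ max N N')⁻¹.injective h1)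

theorem phi_t (h : Free2 t g) (hτ : Near τ t) (hγ : Near γ g) (hc : τ * γ = γ * τ) (y : Y) :
    phi h hγ (t y) = τ (phi h hγ y) := by
  obtain ⟨N, hN⟩ := phi_spec h hγ y
  obtain ⟨N', hN'⟩ := phi_spec h hγ (t y)
  obtain ⟨N'', hN''⟩ := orbit_g h hτ y
  obtain ⟨m, hm⟩ : ∃ m, m = max N (max N' N'') := ⟨_, rfl⟩
  have h1 := hN m (by omega)
  have h2 := hN' m (by omega)
  have h3 : τ ((g ^ m) y) = t ((g ^ m) y) := by
    by_contra hcon
    exact hN'' m (by omega) hcon
  have c1 : (g ^ m) (t y) = t ((g ^ m) y) := by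
    have := (show Commute t g from h.comm).pow_right m
    have h4 := congrArg (fun f : Perm Y => f y) this.eq
    exact h4.symm
  have c2 : (γ ^ m)⁻¹ (τ ((g ^ m) y)) = τ ((γ ^ m)⁻¹ ((g ^ m) y)) := by
    have := ((show Commute τ γ from hc).pow_right m).inv_right
    have h4 := congrArg (fun f : Perm Y => f ((g ^ m) y)) this.eq
    exact h4.symm
  rw [← h2, ← h1, c1, ← h3, c2]

theorem phi_zpow (h : Free2 t g) (hτ : Near τ t) (hγ : Near γ g) (hc : τ * γ = γ * τ) (k : ℤ)
    (y : Y) : phi h hγ ((t ^ k) y) = (τ ^ k) (phi h hγ y) := by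
  have key : ∀ (n : ℕ) (y : Y), phi h hγ ((t ^ n) y) = (τ ^ n) (phi h hγ y) := by
    intro n
    induction n with
    | zero => intro y; simp
    | succ n ih =>
      intro y
      rw [pow_succ', pow_succ', Perm.mul_apply, Perm.mul_apply, phi_t h hτ hγ hc, ih]
  obtain ⟨n, rfl | rfl⟩ := k.eq_nat_or_neg
  · rw [zpow_natCast, zpow_natCast, key]
  · have h1 := key n ((t ^ (-(n : ℤ))) y)
    rw [← zpow_natCast, ← Perm.mul_apply, ← zpow_add, add_neg_cancel, zpow_zero, Perm.one_apply,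
      ← zpow_natCast] at h1
    rw [h1, ← Perm.mul_apply, ← zpow_add, neg_add_cancel, zpow_zero, Perm.one_apply]

/-- on each `t`-orbit `phi` moves finitely many points -/
theorem phi_fix (h : Free2 t g) (hγ : Near γ g) (y : Y) :
    {k : ℤ | phi h hγ ((t ^ k) y) ≠ (t ^ k) y}.Finite := by
  have h1 := orbit_fin h hγ y
  have h2 : (Prod.fst '' {p : ℤ × ℤ | (t ^ p.1 * g ^ p.2) y ∈ {y | γ y ≠ g y}}).Finite :=
    h1.image _
  refine h2.subset ?_
  intro k hk
  by_contra hcon
  apply hk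
  have h3 : ∀ n : ℤ, γ ((g ^ n) ((t ^ k) y)) = g ((g ^ n) ((t ^ k) y)) := by
    intro n
    by_contra hn
    apply hcon
    refine ⟨(k, n), ?_, rfl⟩
    change (t ^ k * g ^ n) y ∈ {y | γ y ≠ g y}
    rw [h.cm]
    exact hn
  have h4 : ∀ m : ℕ, (γ ^ m) ((t ^ k) y) = (g ^ m) ((t ^ k) y) := by
    intro m
    induction m with
    | zero => rfl
    | succ m ih =>
      rw [pow_succ', pow_succ', Perm.mul_apply, Perm.mul_apply, ih]
      have := h3 m
      rwa [zpow_natCast] at this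
  obtain ⟨N, hN⟩ := phi_spec h hγ ((t ^ k) y)
  rw [← hN N le_rfl, ← h4, inv_apply]

theorem exists_large {P : Set ℤ} (hP : P.Finite) : ∃ k : ℕ, (k : ℤ) ∉ P ∧ (-(k : ℤ)) ∉ P := by
  have h1 : {k : ℕ | (k : ℤ) ∈ P}.Finite := hP.preimage (Nat.cast_injective.injOn)
  have h2 : {k : ℕ | (-(k : ℤ)) ∈ P}.Finite := hP.preimage (by
    intro a _ b _ hab
    simpa using hab)
  obtain ⟨k, hk⟩ := (h1.union h2).exists_notMem
  exact ⟨k, fun hc => hk (Or.inl hc), fun hc => hk (Or.inr hc)⟩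

theorem phi_near (h : Free2 t g) (hτ : Near τ t) (hγ : Near γ g) (hc : τ * γ = γ * τ) :
    {y | phi h hγ y ≠ y}.Finite := by
  -- the finite set of exceptional points
  have hfin : {y | (∃ i : ℕ, (t ^ i) y ∈ {y | τ y ≠ t y}) ∧
      ∃ j : ℕ, (t ^ (-(j : ℤ))) y ∈ {y | τ y ≠ t y}}.Finite := by
    have h1 : (⋃ e ∈ {y | τ y ≠ t y}, (fun k : ℤ => (t ^ k) e) ''
        (⋃ k ∈ {k : ℤ | (t ^ k) e ∈ {y | τ y ≠ t y}}, Icc 0 k)).Finite := by
      refine Set.Finite.biUnion hτ fun e _ => Set.Finite.image _ ?_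
      exact Set.Finite.biUnion (orbit_t h hτ e) fun k _ => Set.finite_Icc _ _
    refine h1.subset ?_
    rintro y ⟨⟨i, hi⟩, j, hj⟩
    rw [mem_iUnion₂]
    refine ⟨(t ^ (-(j : ℤ))) y, hj, (j : ℤ), ?_, ?_⟩
    · rw [mem_iUnion₂]
      refine ⟨(i : ℤ) + j, ?_, ?_⟩
      · change (t ^ ((i : ℤ) + j)) ((t ^ (-(j : ℤ))) y) ∈ {y | τ y ≠ t y}
        rw [← Perm.mul_apply, ← zpow_add, add_neg_cancel_right, zpow_natCast]
        exact hi
      · rw [mem_Icc]
        omega
    · change (t ^ (j : ℤ)) ((t ^ (-(j : ℤ))) y) = y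
      rw [← Perm.mul_apply, ← zpow_add, add_neg_cancel, zpow_zero, Perm.one_apply]
  refine hfin.subset ?_
  intro y hy
  obtain ⟨k, hk1, hk2⟩ := exists_large (phi_fix h hγ y)
  simp only [mem_ofPred_eq, not_not] at hk1 hk2
  constructor
  · by_contra hcon
    push Not at hcon
    apply hy
    have h2 : ∀ n : ℕ, (τ ^ n) y = (t ^ n) y := by
      intro n
      induction n with
      | zero => rfl
      | succ n ih =>
        rw [pow_succ', pow_succ', Perm.mul_apply, Perm.mul_apply, ih]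
        have := hcon n
        simpa using this
    have h3 := phi_zpow h hτ hγ hc k y
    rw [hk1, zpow_natCast, zpow_natCast, ← h2] at h3
    exact ((τ ^ k).injective h3).symm
  · by_contra hcon
    push Not at hcon
    apply hy
    have h2 : ∀ n : ℕ, (τ ^ n) ((t ^ (-(n : ℤ))) y) = y := by
      intro n
      induction n with
      | zero => simp
      | succ n ih =>
        have h4 := hcon (n + 1)
        simp only [mem_ofPred_eq, not_not] at h4
        rw [pow_succ, Perm.mul_apply, h4, ← Perm.mul_apply, ← Perm.mul_apply, mul_assoc,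
          ← zpow_one_add, show (1 : ℤ) + -((n + 1 : ℕ) : ℤ) = -(n : ℤ) by push_cast; ring,
          Perm.mul_apply, ih]
    have h3 := phi_zpow h hτ hγ hc k ((t ^ (-(k : ℤ))) y)
    rw [hk2, ← Perm.mul_apply, ← zpow_add, add_neg_cancel, zpow_zero, Perm.one_apply,
      zpow_natCast, h2] at h3
    exact h3

/-- **Rigidity.** -/
theorem rigid (h : Free2 t g) (hτ : Near τ t) (hγ : Near γ g) (hc : τ * γ = γ * τ) :
    ∃ φ : Perm Y, Near φ 1 ∧ φ * t = τ * φ := by
  have hinj := phi_inj h hγ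
  have hfin := phi_near h hτ hγ hc
  have hsurj : Function.Surjective (phi h hγ) := by
    intro y
    by_cases hy : phi h hγ y = y
    · exact ⟨y, hy⟩
    have hmaps : MapsTo (phi h hγ) {y | phi h hγ y ≠ y} {y | phi h hγ y ≠ y} := by
      intro z hz hcon
      exact hz (hinj hcon)
    obtain ⟨x, _, hx⟩ := (hfin.injOn_iff_bijOn_of_mapsTo hmaps).1 hinj.injOn |>.surjOn hy
    exact ⟨x, hx⟩
  refine ⟨Equiv.ofBijective _ ⟨hinj, hsurj⟩, hfin, ?_⟩
  ext y
  exact phi_t h hτ hγ hc y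

/-- uniqueness of the intertwining map -/
theorem uniq (h : Free2 t g) {φ φ' : Perm Y} (h1 : Near φ φ') (e1 : φ * t = τ * φ)
    (e2 : φ' * t = τ * φ') : φ = φ' := by
  have key : ∀ (φ : Perm Y), φ * t = τ * φ → ∀ n : ℕ, φ * t ^ n = τ ^ n * φ := by
    intro φ e n
    induction n with
    | zero => simp
    | succ n ih => rw [pow_succ, ← mul_assoc, ih, mul_assoc, e, ← mul_assoc, ← pow_succ]
  ext y
  have h2 : {k : ℤ | (t ^ k) y ∈ {y | φ y ≠ φ' y}}.Finite := orbit_t h h1 y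
  obtain ⟨k, hk1, -⟩ := exists_large h2
  simp only [mem_ofPred_eq, not_not, zpow_natCast] at hk1
  have h3 := congrArg (fun f : Perm Y => f y) (key φ e1 k)
  have h4 := congrArg (fun f : Perm Y => f y) (key φ' e2 k)
  simp only [Perm.mul_apply] at h3 h4
  rw [hk1, h4] at h3
  exact ((τ ^ k).injective h3).symm

/-- all realizations of a dihedral extension are conjugate to the given one -/
theorem rigid_dihedral (h : Free2 t g) (hτ : Near τ t) (hγ : Near γ g) (hc : τ * γ = γ * τ)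
    {s σ : Perm Y} (hσ : Near σ s) (hs : s * t * s⁻¹ = t⁻¹) (hs' : σ * τ * σ⁻¹ = τ⁻¹) :
    ∃ φ : Perm Y, σ = φ * s * φ⁻¹ := by
  obtain ⟨φ, hφ, e⟩ := rigid h hτ hγ hc
  refine ⟨φ, ?_⟩
  have e1 : σ * φ * s⁻¹ = φ := by
    refine uniq (τ := τ) h ?_ ?_ e
    · have := (hσ.mul hφ).mul (Near.inv (show Near s s by unfold Near; simp))
      rw [mul_one, mul_inv_cancel] at this
      exact this.trans hφ.symm
    · have h1 : s⁻¹ * t = t⁻¹ * s⁻¹ := by
        have h0 : s⁻¹ * (s * t * s⁻¹)⁻¹ * s = t⁻¹ := by group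
        rw [hs, inv_inv] at h0
        rw [← h0]; group
      have h2 : σ * τ⁻¹ = τ * σ := by
        have h3 : σ * τ⁻¹ * σ⁻¹ = τ := by
          have := congrArg (fun x => x⁻¹) hs'
          simp only [inv_inv, mul_inv_rev] at this
          rw [← mul_assoc] at this
          exact this
        calc σ * τ⁻¹ = σ * τ⁻¹ * σ⁻¹ * σ := by group
          _ = τ * σ := by rw [h3]
      have h3 : φ * t⁻¹ = τ⁻¹ * φ := by
        have : τ⁻¹ * (φ * t) * t⁻¹ = τ⁻¹ * (τ * φ) * t⁻¹ := by rw [e]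
        calc φ * t⁻¹ = τ⁻¹ * (τ * φ) * t⁻¹ := by group
          _ = τ⁻¹ * (φ * t) * t⁻¹ := this.symm
          _ = τ⁻¹ * φ := by group
      calc σ * φ * s⁻¹ * t = σ * φ * (s⁻¹ * t) := by group
        _ = σ * (φ * t⁻¹) * s⁻¹ := by rw [h1]; group
        _ = (σ * τ⁻¹) * φ * s⁻¹ := by rw [h3]; group
        _ = τ * (σ * φ * s⁻¹) := by rw [h2]; group
  calc σ = (σ * φ * s⁻¹) * s * φ⁻¹ := by group
    _ = φ * s * φ⁻¹ := by rw [e1]

end main

end Pool.Agent.H17RL
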