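import Pool.Agent.H17RL.Top
import Pool.Agent.H17RL.Rig
import Pool.Agent.H17RL.Num
import Pool.Agent.H17RL.Poly

/-! The two groups of permutations. -/

set_option autoImplicit false

namespace Pool.Agent.H17RL

open Set Equiv OnePoint

/-- `GL₂(ℝ)` -/
abbrev G2 := Matrix.GeneralLinearGroup (Fin 2) ℝ

/-- Möbius transformations, as a homomorphism -/
noncomputable def mobHom : G2 →* Perm P := MulAction.toPermHom G2 P

theorem mobHom_apply (M : G2) (x : P) : mobHom M x = M • x := rfl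

theorem mobHom_eq (M : G2) : mobHom M = mob M := rfl

/-- rotations -/
noncomputable def rot : ℂˣ →* G2 :=
  Units.map ((Algebra.leftMulMatrix Complex.basisOneI : ℂ →ₐ[ℝ] Matrix (Fin 2) (Fin 2) ℝ) :
    ℂ →* Matrix (Fin 2) (Fin 2) ℝ)

theorem rot_val (u : ℂˣ) : (rot u : Matrix (Fin 2) (Fin 2) ℝ) =
    !![(u : ℂ).re, -(u : ℂ).im; (u : ℂ).im, (u : ℂ).re] := by
  change Algebra.leftMulMatrix Complex.basisOneI (u : ℂ) = _
  rw [Algebra.leftMulMatrix_complex]

/-- conjugation -/
noncomputable def cj : ℂˣ →* ℂˣ := Units.map ((starRingEnd ℂ : ℂ →+* ℂ) : ℂ →* ℂ)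

theorem cj_val (u : ℂˣ) : (cj u : ℂ) = (starRingEnd ℂ) (u : ℂ) := rfl

/-- the transcendental parameter -/
noncomputable def lam : ℝ := liouvilleNumber 2

theorem lam_tr : Transcendental ℤ lam := transcendental_liouvilleNumber le_rfl

theorem lam_ne : lam ≠ 0 := by
  intro h
  apply lam_tr
  rw [h]
  exact isAlgebraic_zero

/-- `x ↦ λ x` -/
noncomputable def hG : G2 := Matrix.GeneralLinearGroup.mkOfDetNeZero !![lam, 0; 0, 1] (by
  rw [Matrix.det_fin_two_of]; simpa using lam_ne)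

/-- `x ↦ -x` -/
noncomputable def sG : G2 := Matrix.GeneralLinearGroup.mkOfDetNeZero !![-1, 0; 0, 1] (by
  rw [Matrix.det_fin_two_of]; norm_num)

/-- conjugated rotations -/
noncomputable def rotB : ℂˣ →* G2 := (MulAut.conj hG).toMonoidHom.comp rot

theorem rotB_apply (u : ℂˣ) : rotB u = hG * rot u * hG⁻¹ := rfl

theorem sG_rot (u : ℂˣ) : sG * rot u = rot (cj u) * sG := by
  apply Units.ext
  rw [Units.val_mul, Units.val_mul, rot_val, rot_val, cj_val]
  change !![-1, 0; 0, 1] * _ = _ * !![-1, 0; 0, 1]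
  simp

theorem sG_hG : sG * hG = hG * sG := by
  apply Units.ext
  rw [Units.val_mul, Units.val_mul]
  change !![-1, 0; 0, 1] * !![lam, 0; 0, 1] = !![lam, 0; 0, 1] * !![-1, 0; 0, 1]
  simp

theorem sG_sq : sG * sG = 1 := by
  apply Units.ext
  rw [Units.val_mul]
  change !![-1, 0; 0, 1] * !![-1, 0; 0, 1] = (1 : Matrix (Fin 2) (Fin 2) ℝ)
  rw [Matrix.mul_fin_two, Matrix.one_fin_two]
  norm_num

theorem sG_rotB (u : ℂˣ) : sG * rotB u = rotB (cj u) * sG := by
  rw [rotB_apply, rotB_apply]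
  have h1 : sG * hG⁻¹ = hG⁻¹ * sG := by
    have h2 : hG⁻¹ * (sG * hG) * hG⁻¹ = hG⁻¹ * (hG * sG) * hG⁻¹ := by rw [sG_hG]
    calc sG * hG⁻¹ = hG⁻¹ * (hG * sG) * hG⁻¹ := by group
      _ = hG⁻¹ * (sG * hG) * hG⁻¹ := h2.symm
      _ = hG⁻¹ * sG := by group
  calc sG * (hG * rot u * hG⁻¹) = (sG * hG) * rot u * hG⁻¹ := by group
    _ = hG * (sG * rot u) * hG⁻¹ := by rw [sG_hG]; group
    _ = hG * rot (cj u) * (sG * hG⁻¹) := by rw [sG_rot]; group
    _ = hG * rot (cj u) * hG⁻¹ * sG := by rw [h1]; group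

theorem sG_smul_coe (x : ℝ) : sG • (x : P) = ((-x : ℝ) : P) := by
  rw [OnePoint.smul_some_eq_ite]
  have e1 : (sG : Matrix (Fin 2) (Fin 2) ℝ) 1 0 = 0 := rfl
  have e2 : (sG : Matrix (Fin 2) (Fin 2) ℝ) 1 1 = 1 := rfl
  have e3 : (sG : Matrix (Fin 2) (Fin 2) ℝ) 0 0 = -1 := rfl
  have e4 : (sG : Matrix (Fin 2) (Fin 2) ℝ) 0 1 = 0 := rfl
  rw [e1, e2, e3, e4]
  norm_num

theorem sG_smul_infty : sG • (∞ : P) = ∞ := by
  rw [OnePoint.smul_infty_eq_ite]
  have e1 : (sG : Matrix (Fin 2) (Fin 2) ℝ) 1 0 = 0 := rfl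
  rw [if_pos e1]

/-- scalar matrices act trivially -/
theorem smul_scalar {M : G2} (h1 : M 1 0 = 0) (h2 : M 0 1 = 0) (h3 : M 0 0 = M 1 1) (x : P) :
    M • x = x := by
  have h4 : M 1 1 ≠ 0 := by
    intro h4
    have := M.det_ne_zero
    rw [Matrix.det_fin_two, h1, h3, h4] at this
    simp at this
  induction x using OnePoint.rec with
  | infty => rw [OnePoint.smul_infty_eq_ite, if_pos h1]
  | coe x =>
    rw [OnePoint.smul_some_eq_ite, h1, h2, h3]
    rw [if_neg (by simpa using h4), zero_mul, zero_add, add_zero, mul_comm, mul_div_assoc,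
      div_self h4, mul_one]

theorem rot_real {u : ℂˣ} (h : (u : ℂ).im = 0) : mobHom (rot u) = 1 := by
  ext x
  rw [mobHom_apply, smul_scalar]
  · rfl
  · rw [rot_val]; simpa using h
  · rw [rot_val]; simpa using h
  · rw [rot_val]; simp

theorem rotB_real {u : ℂˣ} (h : (u : ℂ).im = 0) : mobHom (rotB u) = 1 := by
  rw [rotB_apply, map_mul, map_mul, rot_real h, mul_one, ← map_mul, mul_inv_cancel, map_one]

/-- rotations act freely -/
theorem rot_free {u : ℂˣ} {x : P} (h : rot u • x = x) : (u : ℂ).im = 0 := by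
  induction x using OnePoint.rec with
  | infty =>
    rw [OnePoint.smul_infty_eq_self_iff, rot_val] at h
    simpa using h
  | coe x =>
    rw [OnePoint.smul_some_eq_ite, rot_val] at h
    simp only [Matrix.of_apply, Matrix.cons_val', Matrix.cons_val_zero, Matrix.cons_val_one,
      Matrix.cons_val_fin_one] at h
    split_ifs at h with hc
    · exact absurd h (OnePoint.infty_ne_coe _)
    · rw [OnePoint.coe_eq_coe, div_eq_iff hc] at h
      have h5 : (u : ℂ).im * (x ^ 2 + 1) = 0 := by linarith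
      rcases mul_eq_zero.1 h5 with h6 | h6
      · exact h6
      · nlinarith

theorem rotB_free {u : ℂˣ} {x : P} (h : rotB u • x = x) : (u : ℂ).im = 0 := by
  rw [rotB_apply, mul_smul, mul_smul, smul_eq_iff_eq_inv_smul] at h
  exact rot_free h

/-- the first action, on two circles -/
noncomputable def A0 : ℂˣ →* Perm (P ⊕ P) :=
  (Perm.sumCongrHom P P).comp ((mobHom.comp rot).prod (mobHom.comp rot))

/-- the second action on the first circle -/
noncomputable def B01 : ℂˣ →* Perm P :=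
  (cut.symm.permCongrHom : Perm (P ⊕ P) →* Perm P).comp
    ((Perm.sumCongrHom P P).comp ((mobHom.comp rot).prod ((mobHom.comp rot).comp cj)))

/-- the second action, on two circles -/
noncomputable def B0 : ℂˣ →* Perm (P ⊕ P) :=
  (Perm.sumCongrHom P P).comp (B01.prod (mobHom.comp rotB))

/-- the two lifts of the involution -/
noncomputable def sA0 : Perm (P ⊕ P) := Equiv.sumCongr (mobHom sG) (mobHom sG)

/-- the involution without fixed points on the first circle -/
noncomputable def sB01 : Perm P := (cut.trans (Equiv.sumComm P P)).trans cut.symm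

/-- the two lifts of the involution -/
noncomputable def sB0 : Perm (P ⊕ P) := Equiv.sumCongr sB01 (mobHom sG)

theorem A0_inl (u : ℂˣ) (x : P) : A0 u (Sum.inl x) = Sum.inl (rot u • x) := rfl

theorem A0_inr (u : ℂˣ) (x : P) : A0 u (Sum.inr x) = Sum.inr (rot u • x) := rfl

theorem B0_inl (u : ℂˣ) (x : P) : B0 u (Sum.inl x) = Sum.inl (B01 u x) := rfl

theorem B0_inr (u : ℂˣ) (x : P) : B0 u (Sum.inr x) = Sum.inr (rotB u • x) := rfl

theorem B01_l (u : ℂˣ) (x : P) : B01 u (cut.symm (Sum.inl x)) = cut.symm (Sum.inl (rot u • x)) := by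
  change cut.symm (Sum.map (mobHom (rot u)) (mobHom (rot (cj u))) (cut (cut.symm (Sum.inl x)))) = _
  rw [Equiv.apply_symm_apply]
  rfl

theorem B01_r (u : ℂˣ) (x : P) :
    B01 u (cut.symm (Sum.inr x)) = cut.symm (Sum.inr (rot (cj u) • x)) := by
  change cut.symm (Sum.map (mobHom (rot u)) (mobHom (rot (cj u))) (cut (cut.symm (Sum.inr x)))) = _
  rw [Equiv.apply_symm_apply]
  rfl

theorem sB01_l (x : P) : sB01 (cut.symm (Sum.inl x)) = cut.symm (Sum.inr x) := by
  change cut.symm (Sum.swap (cut (cut.symm (Sum.inl x)))) = _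
  rw [Equiv.apply_symm_apply]
  rfl

theorem sB01_r (x : P) : sB01 (cut.symm (Sum.inr x)) = cut.symm (Sum.inl x) := by
  change cut.symm (Sum.swap (cut (cut.symm (Sum.inr x)))) = _
  rw [Equiv.apply_symm_apply]
  rfl

theorem cut_ind {p : P → Prop} (h1 : ∀ x, p (cut.symm (Sum.inl x)))
    (h2 : ∀ x, p (cut.symm (Sum.inr x))) (x : P) : p x := by
  rw [← cut.symm_apply_apply x]
  rcases cut x with y | y
  · exact h1 y
  · exact h2 y

theorem sA0_A0 (u : ℂˣ) : sA0 * A0 u = A0 (cj u) * sA0 := by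
  ext x
  rcases x with x | x
  · change Sum.inl (sG • rot u • x) = Sum.inl (rot (cj u) • sG • x)
    rw [← mul_smul, ← mul_smul, sG_rot]
  · change Sum.inr (sG • rot u • x) = Sum.inr (rot (cj u) • sG • x)
    rw [← mul_smul, ← mul_smul, sG_rot]

theorem cj_cj (u : ℂˣ) : cj (cj u) = u := by
  apply Units.ext
  rw [cj_val, cj_val, Complex.conj_conj]

theorem sB0_B0 (u : ℂˣ) : sB0 * B0 u = B0 (cj u) * sB0 := by
  ext x
  rcases x with x | x
  · change Sum.inl (sB01 (B01 u x)) = Sum.inl (B01 (cj u) (sB01 x))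
    congr 1
    induction x using cut_ind with
    | h1 x => rw [B01_l, sB01_l, sB01_l, B01_r, cj_cj]
    | h2 x => rw [B01_r, sB01_r, sB01_r, B01_l]
  · change Sum.inr (sG • rotB u • x) = Sum.inr (rotB (cj u) • sG • x)
    rw [← mul_smul, ← mul_smul, sG_rotB]

theorem A0_real {u : ℂˣ} (h : (u : ℂ).im = 0) : A0 u = 1 := by
  ext x
  rcases x with x | x
  · change Sum.inl (mobHom (rot u) x) = Sum.inl x
    rw [rot_real h]; rfl
  · change Sum.inr (mobHom (rot u) x) = Sum.inr x
    rw [rot_real h]; rfl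

theorem B0_real {u : ℂˣ} (h : (u : ℂ).im = 0) : B0 u = 1 := by
  have h' : ((cj u : ℂˣ) : ℂ).im = 0 := by rw [cj_val, Complex.conj_im, h, neg_zero]
  ext x
  rcases x with x | x
  · change Sum.inl (B01 u x) = Sum.inl x
    congr 1
    induction x using cut_ind with
    | h1 x =>
      rw [B01_l, ← mobHom_apply, rot_real h]; rfl
    | h2 x =>
      rw [B01_r, ← mobHom_apply, rot_real h']; rfl
  · change Sum.inr (mobHom (rotB u) x) = Sum.inr x
    rw [rotB_real h]; rfl

theorem A0_free {u : ℂˣ} {x : P ⊕ P} (h : A0 u x = x) : (u : ℂ).im = 0 := by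
  rcases x with x | x
  · rw [A0_inl, Sum.inl.injEq] at h
    exact rot_free h
  · rw [A0_inr, Sum.inr.injEq] at h
    exact rot_free h

theorem B0_free {u : ℂˣ} {x : P ⊕ P} (h : B0 u x = x) : (u : ℂ).im = 0 := by
  rcases x with x | x
  · rw [B0_inl, Sum.inl.injEq] at h
    induction x using cut_ind with
    | h1 x =>
      rw [B01_l, cut.symm.injective.eq_iff, Sum.inl.injEq] at h
      exact rot_free h
    | h2 x =>
      rw [B01_r, cut.symm.injective.eq_iff, Sum.inr.injEq] at h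
      have := rot_free h
      rw [cj_val, Complex.conj_im] at this
      linarith
  · rw [B0_inr, Sum.inr.injEq] at h
    exact rotB_free h

theorem A0_pe (u : ℂˣ) : PE (A0 u) := (mob_pe (rot u)).sum (mob_pe (rot u))

theorem B01_pe (u : ℂˣ) : PE (B01 u) :=
  (cut_pe.trans ((mob_pe (rot u)).sum (mob_pe (rot (cj u))))).trans cut_pe.symm

theorem B0_pe (u : ℂˣ) : PE (B0 u) := (B01_pe u).sum (mob_pe (rotB u))

theorem sA0_pe : PE sA0 := (mob_pe sG).sum (mob_pe sG)

theorem sB01_pe : PE sB01 := (cut_pe.trans PE.sumComm).trans cut_pe.symm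

theorem sB0_pe : PE sB0 := sB01_pe.sum (mob_pe sG)

/-- the values of the fixed point free involution -/
theorem sB01_coe {x : ℝ} (hx : x ≠ 0) : sB01 (x : P) = ((-x : ℝ) : P) := by
  rcases lt_or_gt_of_ne hx with h | h
  · have h1 : (x : P) = cut.symm (Sum.inr (Real.log (-x) : P)) := by
      rw [← cut_neg h, Equiv.symm_apply_apply]
    rw [h1, sB01_r]
    have h2 : cut ((-x : ℝ) : P) = Sum.inl (Real.log (-x) : P) := cut_pos (by linarith)
    rw [← h2, Equiv.symm_apply_apply]
  · have h1 : (x : P) = cut.symm (Sum.inl (Real.log x : P)) := by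
      rw [← cut_pos h, Equiv.symm_apply_apply]
    rw [h1, sB01_l]
    have h2 : cut ((-x : ℝ) : P) = Sum.inr (Real.log x : P) := by
      rw [cut_neg (by linarith), neg_neg]
    rw [← h2, Equiv.symm_apply_apply]

theorem sB01_zero : sB01 ((0 : ℝ) : P) = ∞ := by
  have h1 : ((0 : ℝ) : P) = cut.symm (Sum.inl ∞) := by rw [← cut_zero, Equiv.symm_apply_apply]
  rw [h1, sB01_l, ← cut_infty, Equiv.symm_apply_apply]

theorem sB01_infty : sB01 (∞ : P) = ((0 : ℝ) : P) := by
  have h1 : (∞ : P) = cut.symm (Sum.inr ∞) := by rw [← cut_infty, Equiv.symm_apply_apply]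
  rw [h1, sB01_r, ← cut_zero, Equiv.symm_apply_apply]

theorem sB01_ne (x : P) : sB01 x ≠ x := by
  induction x using cut_ind with
  | h1 x =>
    rw [sB01_l]
    intro h
    simpa using cut.symm.injective h
  | h2 x =>
    rw [sB01_r]
    intro h
    simpa using cut.symm.injective h

end Pool.Agent.H17RL
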