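import Pool.Agent.H17RL.Act

/-! The group on `S ⊔ {two points}`. -/

set_option autoImplicit false

namespace Pool.Agent.H17RL

open Set Equiv OnePoint Polynomial

/-- transport to the circle -/
noncomputable def cS : Perm (P ⊕ P) →* Perm S := (split.symm.permCongrHom : Perm (P ⊕ P) →* Perm S)

theorem cS_apply (f : Perm (P ⊕ P)) (y : S) : cS f y = split.symm (f (split y)) := rfl

theorem cS_symm (f : Perm (P ⊕ P)) (x : P ⊕ P) : cS f (split.symm x) = split.symm (f x) := by
  rw [cS_apply, Equiv.apply_symm_apply]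

theorem cS_pe {f : Perm (P ⊕ P)} (h : PE f) : PE (cS f) := (split_pe.trans h).trans split_pe.symm

/-- the first action on the circle -/
noncomputable def A1 : ℂˣ →* Perm S := cS.comp A0

/-- the second action on the circle -/
noncomputable def B1 : ℂˣ →* Perm S := cS.comp B0

/-- the involution with four fixed points -/
noncomputable def sA1 : Perm S := cS sA0

/-- the involution with two fixed points -/
noncomputable def sB1 : Perm S := cS sB0

theorem sA1_A1 (u : ℂˣ) : sA1 * A1 u = A1 (cj u) * sA1 := by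
  change cS sA0 * cS (A0 u) = cS (A0 (cj u)) * cS sA0
  rw [← map_mul, sA0_A0, map_mul]

theorem sB1_B1 (u : ℂˣ) : sB1 * B1 u = B1 (cj u) * sB1 := by
  change cS sB0 * cS (B0 u) = cS (B0 (cj u)) * cS sB0
  rw [← map_mul, sB0_B0, map_mul]

theorem A1_real {u : ℂˣ} (h : (u : ℂ).im = 0) : A1 u = 1 := by
  change cS (A0 u) = 1
  rw [A0_real h, map_one]

theorem B1_real {u : ℂˣ} (h : (u : ℂ).im = 0) : B1 u = 1 := by
  change cS (B0 u) = 1
  rw [B0_real h, map_one]

theorem A1_free {u : ℂˣ} {y : S} (h : A1 u y = y) : (u : ℂ).im = 0 := by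
  change split.symm (A0 u (split y)) = y at h
  rw [Equiv.symm_apply_eq] at h
  exact A0_free h

theorem B1_free {u : ℂˣ} {y : S} (h : B1 u y = y) : (u : ℂ).im = 0 := by
  change split.symm (B0 u (split y)) = y at h
  rw [Equiv.symm_apply_eq] at h
  exact B0_free h

/-- `0` on the first circle -/
noncomputable def q0 : S := split.symm (Sum.inl ((0 : ℝ) : P))

/-- `∞` on the first circle -/
noncomputable def q1 : S := split.symm (Sum.inl ∞)

theorem q_ne : q0 ≠ q1 := by
  intro h
  have := split.symm.injective h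
  rw [Sum.inl.injEq] at this
  exact OnePoint.coe_ne_infty _ this

/-- the circle and two points -/
abbrev T := S ⊕ Bool

open Classical in
/-- exchanges `0`, `∞` and the two points -/
noncomputable def kap : Perm T :=
  swap (Sum.inl q0) (Sum.inr true) * swap (Sum.inl q1) (Sum.inr false)

theorem kap_q0 : kap (Sum.inl q0) = Sum.inr true := by
  classical
  have h : swap (Sum.inl q1 : T) (Sum.inr false) (Sum.inl q0) = Sum.inl q0 :=
    swap_apply_of_ne_of_ne (by simpa using q_ne) (by simp)
  unfold kap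
  rw [Perm.mul_apply]
  convert swap_apply_left (Sum.inl q0 : T) (Sum.inr true) using 2

theorem kap_q1 : kap (Sum.inl q1) = Sum.inr false := by
  unfold kap
  rw [Perm.mul_apply, swap_apply_left, swap_apply_of_ne_of_ne (by simp) (by simp)]

theorem kap_true : kap (Sum.inr true) = Sum.inl q0 := by
  classical
  have h : swap (Sum.inl q1 : T) (Sum.inr false) (Sum.inr true) = Sum.inr true :=
    swap_apply_of_ne_of_ne (by simp) (by simp)
  unfold kap
  rw [Perm.mul_apply]
  convert swap_apply_right (Sum.inl q0 : T) (Sum.inr true) using 2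

theorem kap_false : kap (Sum.inr false) = Sum.inl q1 := by
  unfold kap
  rw [Perm.mul_apply, swap_apply_right, swap_apply_of_ne_of_ne (by simpa using q_ne.symm) (by simp)]

theorem kap_ne {y : S} (h0 : y ≠ q0) (h1 : y ≠ q1) : kap (Sum.inl y) = Sum.inl y := by
  classical
  have h : swap (Sum.inl q1 : T) (Sum.inr false) (Sum.inl y) = Sum.inl y :=
    swap_apply_of_ne_of_ne (by simpa using h1) (by simp)
  have h' : swap (Sum.inl q0 : T) (Sum.inr true) (Sum.inl y) = Sum.inl y :=
    swap_apply_of_ne_of_ne (by simpa using h0) (by simp)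
  unfold kap
  rw [Perm.mul_apply]
  convert h' using 2

/-- extension by the identity -/
noncomputable def eS : Perm S →* Perm T :=
  (Perm.sumCongrHom S Bool).comp ((MonoidHom.id (Perm S)).prod 1)

theorem eS_inl (f : Perm S) (y : S) : eS f (Sum.inl y) = Sum.inl (f y) := rfl

theorem eS_inr (f : Perm S) (y : Bool) : eS f (Sum.inr y) = Sum.inr y := rfl

/-- the first action -/
noncomputable def A2 : ℂˣ →* Perm T := eS.comp A1

/-- the second action -/
noncomputable def B2 : ℂˣ →* Perm T := (MulAut.conj kap).toMonoidHom.comp (eS.comp B1)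

theorem B2_apply (u : ℂˣ) : B2 u = kap * eS (B1 u) * kap⁻¹ := rfl

/-- the involution -/
noncomputable def s2 : Perm T := Equiv.sumCongr sA1 Equiv.boolNot

theorem s2_inl (y : S) : s2 (Sum.inl y) = Sum.inl (sA1 y) := rfl

theorem s2_inr (y : Bool) : s2 (Sum.inr y) = Sum.inr (!y) := rfl

theorem sA1_coe (x : ℝ) : sA1 (split.symm (Sum.inl (x : P))) = split.symm (Sum.inl ((-x : ℝ) : P)) := by
  change cS sA0 (split.symm (Sum.inl (x : P))) = _
  rw [cS_symm]
  change split.symm (Sum.inl (sG • (x : P))) = _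
  rw [sG_smul_coe]

theorem sA1_inf : sA1 q1 = q1 := by
  change cS sA0 (split.symm (Sum.inl (∞ : P))) = _
  rw [cS_symm]
  change split.symm (Sum.inl (sG • (∞ : P))) = _
  rw [sG_smul_infty]
  rfl

theorem sA1_zero : sA1 q0 = q0 := by
  unfold q0
  rw [sA1_coe, neg_zero]

theorem sA1_inr (x : P) : sA1 (split.symm (Sum.inr x)) = split.symm (Sum.inr (sG • x)) := by
  change cS sA0 (split.symm (Sum.inr x)) = _
  rw [cS_symm]
  rfl

theorem sB1_coe {x : ℝ} (hx : x ≠ 0) :
    sB1 (split.symm (Sum.inl (x : P))) = split.symm (Sum.inl ((-x : ℝ) : P)) := by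
  change cS sB0 (split.symm (Sum.inl (x : P))) = _
  rw [cS_symm]
  change split.symm (Sum.inl (sB01 (x : P))) = _
  rw [sB01_coe hx]

theorem sB1_inf : sB1 q1 = q0 := by
  change cS sB0 (split.symm (Sum.inl (∞ : P))) = _
  rw [cS_symm]
  change split.symm (Sum.inl (sB01 (∞ : P))) = _
  rw [sB01_infty]
  rfl

theorem sB1_zero : sB1 q0 = q1 := by
  change cS sB0 (split.symm (Sum.inl ((0 : ℝ) : P))) = _
  rw [cS_symm]
  change split.symm (Sum.inl (sB01 ((0 : ℝ) : P))) = _
  rw [sB01_zero]
  rfl

theorem sB1_inr (x : P) : sB1 (split.symm (Sum.inr x)) = split.symm (Sum.inr (sG • x)) := by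
  change cS sB0 (split.symm (Sum.inr x)) = _
  rw [cS_symm]
  rfl

theorem inr_ne (x : P) : split.symm (Sum.inr x) ≠ q0 ∧ split.symm (Sum.inr x) ≠ q1 := by
  constructor
  · intro h
    have := split.symm.injective h
    simp at this
  · intro h
    have := split.symm.injective h
    simp at this

theorem coe_ne {x : ℝ} (hx : x ≠ 0) :
    split.symm (Sum.inl (x : P)) ≠ q0 ∧ split.symm (Sum.inl (x : P)) ≠ q1 := by
  constructor
  · intro h
    have := split.symm.injective h
    rw [Sum.inl.injEq, OnePoint.coe_eq_coe] at this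
    exact hx this
  · intro h
    have := split.symm.injective h
    rw [Sum.inl.injEq] at this
    exact OnePoint.coe_ne_infty _ this

theorem split_ind {p : S → Prop} (h0 : p q0) (h1 : p q1)
    (h2 : ∀ x : ℝ, x ≠ 0 → p (split.symm (Sum.inl (x : P))))
    (h3 : ∀ x : P, p (split.symm (Sum.inr x))) (y : S) : p y := by
  rw [← split.symm_apply_apply y]
  rcases split y with x | x
  · induction x using OnePoint.rec with
    | infty => exact h1
    | coe x =>
      by_cases hx : x = 0
      · subst hx; exact h0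
      · exact h2 x hx
  · exact h3 x

/-- the two lifts of the involution agree on the extended space -/
theorem s2_kap : s2 * kap = kap * eS sB1 := by
  ext y
  rw [Perm.mul_apply, Perm.mul_apply]
  rcases y with y | y
  · rw [eS_inl]
    induction y using split_ind with
    | h0 => rw [kap_q0, s2_inr, sB1_zero, kap_q1]; rfl
    | h1 => rw [kap_q1, s2_inr, sB1_inf, kap_q0]; rfl
    | h2 x hx =>
      have h1 := coe_ne hx
      have h2 := coe_ne (neg_ne_zero.2 hx)
      rw [kap_ne h1.1 h1.2, s2_inl, sA1_coe, sB1_coe hx, kap_ne h2.1 h2.2]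
    | h3 x =>
      have h1 := inr_ne x
      have h2 := inr_ne (sG • x)
      rw [kap_ne h1.1 h1.2, s2_inl, sA1_inr, sB1_inr, kap_ne h2.1 h2.2]
  · rw [eS_inr]
    cases y with
    | true => rw [kap_true, s2_inl, sA1_zero]
    | false => rw [kap_false, s2_inl, sA1_inf]

theorem s2_A2 (u : ℂˣ) : s2 * A2 u = A2 (cj u) * s2 := by
  ext y
  rcases y with y | y
  · change Sum.inl ((sA1 * A1 u) y) = Sum.inl ((A1 (cj u) * sA1) y)
    rw [sA1_A1]
  · rfl

theorem s2_B2 (u : ℂˣ) : s2 * B2 u = B2 (cj u) * s2 := by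
  have h1 : s2 = kap * eS sB1 * kap⁻¹ := by rw [← s2_kap]; group
  calc s2 * B2 u = (s2 * kap) * eS (B1 u) * kap⁻¹ := by rw [B2_apply]; group
    _ = kap * (eS sB1 * eS (B1 u)) * kap⁻¹ := by rw [s2_kap]; group
    _ = kap * (eS (B1 (cj u)) * eS sB1) * kap⁻¹ := by rw [← map_mul, sB1_B1, map_mul]
    _ = (kap * eS (B1 (cj u)) * kap⁻¹) * (kap * eS sB1 * kap⁻¹) := by group
    _ = B2 (cj u) * s2 := by rw [← h1, B2_apply]

theorem sA1_sq : sA1 * sA1 = 1 := by
  change cS sA0 * cS sA0 = 1
  rw [← map_mul]
  have : sA0 * sA0 = 1 := by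
    ext x
    rcases x with x | x
    · change Sum.inl (sG • sG • x) = Sum.inl x
      rw [← mul_smul, sG_sq, one_smul]
    · change Sum.inr (sG • sG • x) = Sum.inr x
      rw [← mul_smul, sG_sq, one_smul]
  rw [this, map_one]

theorem s2_sq : s2 * s2 = 1 := by
  ext y
  rcases y with y | y
  · change Sum.inl ((sA1 * sA1) y) = Sum.inl y
    rw [sA1_sq]; rfl
  · change Sum.inr (!!y) = Sum.inr y
    rw [Bool.not_not]

/-- nonzero Gaussian integers as units -/
noncomputable def U (x : GaussianInt) : ℂˣ :=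
  open Classical in if h : (x : ℂ) ≠ 0 then Units.mk0 (x : ℂ) h else 1

theorem U_val {x : GaussianInt} (h : x ≠ 0) : (U x : ℂ) = (x : ℂ) := by
  unfold U
  have h' : (x : ℂ) ≠ 0 := fun hc => h (GaussianInt.toComplex_eq_zero.1 hc)
  rw [dif_pos h']
  rfl

theorem U_mul {x y : GaussianInt} (hx : x ≠ 0) (hy : y ≠ 0) : U (x * y) = U x * U y := by
  apply Units.ext
  rw [U_val (mul_ne_zero hx hy), Units.val_mul, U_val hx, U_val hy, GaussianInt.toComplex_mul]

theorem star_ne {x : GaussianInt} (hx : x ≠ 0) : star x ≠ 0 := by simpa using hx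

theorem U_star {x : GaussianInt} (hx : x ≠ 0) : U (star x) = cj (U x) := by
  apply Units.ext
  rw [U_val (star_ne hx), cj_val, U_val hx, GaussianInt.toComplex_star]

/-- letters -/
noncomputable def lett (b : Bool) (x : GaussianInt) : Perm T := if b then A2 (U x) else B2 (U x)

theorem lett_mul (b : Bool) {x y : GaussianInt} (hx : x ≠ 0) (hy : y ≠ 0) :
    lett b x * lett b y = lett b (x * y) := by
  unfold lett
  rw [U_mul hx hy]
  cases b
  · simp
  · simp

theorem lett_real (b : Bool) {x : GaussianInt} (hx : x ≠ 0) (h : x.im = 0) : lett b x = 1 := by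
  have h1 : ((U x : ℂˣ) : ℂ).im = 0 := by
    rw [U_val hx, ← GaussianInt.intCast_im, h, Int.cast_zero]
  unfold lett
  cases b
  · simp only [Bool.false_eq_true, if_false]
    rw [B2_apply, B1_real h1, map_one, mul_one, mul_inv_cancel]
  · simp only [if_true]
    change eS (A1 (U x)) = 1
    rw [A1_real h1, map_one]

theorem lett_star (b : Bool) {x : GaussianInt} (hx : x ≠ 0) :
    s2 * lett b x = lett b (star x) * s2 := by
  unfold lett
  rw [U_star hx]
  cases b
  · simpa using s2_B2 (U x)
  · simpa using s2_A2 (U x)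

theorem lett_inv (b : Bool) {x : GaussianInt} (hx : x ≠ 0) : (lett b x)⁻¹ = lett b (star x) := by
  rw [inv_eq_iff_mul_eq_one, lett_mul b hx (star_ne hx)]
  apply lett_real b (mul_ne_zero hx (star_ne hx))
  simp
  ring

/-- the value of a word -/
noncomputable def ev (l : List (Bool × GaussianInt)) : Perm T := (l.map fun p => lett p.1 p.2).prod

theorem im_ne {x : GaussianInt} (h : x.im ≠ 0) : x ≠ 0 := by
  rintro rfl
  exact h rfl

/-- normal forms -/
def NF (x : Perm T) : Prop := ∃ l, Red l ∧ (x = ev l ∨ x = ev l * s2)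

theorem ev_lett (b : Bool) {x : GaussianInt} (hx : x ≠ 0) {l : List (Bool × GaussianInt)}
    (hl : Red l) : ∃ l', Red l' ∧ lett b x * ev l = ev l' := by
  by_cases him : x.im = 0
  · exact ⟨l, hl, by rw [lett_real b hx him, one_mul]⟩
  rcases l with _ | ⟨⟨b', y⟩, l⟩
  · refine ⟨[(b, x)], ⟨List.isChain_singleton _, ?_⟩, ?_⟩
    · intro p hp
      rw [List.mem_singleton] at hp
      rw [hp]
      exact him
    · simp [ev]
  · by_cases hb : b = b'
    · subst hb
      have hy : y ≠ 0 := im_ne (hl.2 (b, y) (by simp))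
      have e1 : lett b x * ev ((b, y) :: l) = lett b (x * y) * ev l := by
        unfold ev
        rw [List.map_cons, List.prod_cons, ← mul_assoc, lett_mul b hx hy]
      by_cases h2 : (x * y).im = 0
      · refine ⟨l, ⟨hl.1.tail, fun p hp => hl.2 p (List.mem_cons_of_mem _ hp)⟩, ?_⟩
        rw [e1, lett_real b (mul_ne_zero hx hy) h2, one_mul]
      · refine ⟨(b, x * y) :: l, ⟨?_, ?_⟩, ?_⟩
        · rcases l with _ | ⟨q, l⟩
          · exact List.isChain_singleton _
          · have := List.isChain_cons_cons.1 hl.1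
            exact List.isChain_cons_cons.2 this
        · intro p hp
          rcases List.mem_cons.1 hp with rfl | hp
          · exact h2
          · exact hl.2 p (List.mem_cons_of_mem _ hp)
        · rw [e1]
          simp [ev]
    · refine ⟨(b, x) :: (b', y) :: l, ⟨List.isChain_cons_cons.2 ⟨hb, hl.1⟩, ?_⟩, ?_⟩
      · intro p hp
        rcases List.mem_cons.1 hp with rfl | hp
        · exact him
        · exact hl.2 p hp
      · simp [ev]

theorem ev_s2 (l : List (Bool × GaussianInt)) (hl : Red l) :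
    ∃ l', Red l' ∧ s2 * ev l = ev l' * s2 := by
  refine ⟨l.map fun p => (p.1, star p.2), ⟨?_, ?_⟩, ?_⟩
  · rw [List.isChain_map]
    exact hl.1
  · intro p hp
    obtain ⟨q, hq, rfl⟩ := List.mem_map.1 hp
    have := hl.2 q hq
    simpa using this
  · have : ∀ l : List (Bool × GaussianInt), (∀ p ∈ l, p.2.im ≠ 0) →
        s2 * ev l = ev (l.map fun p => (p.1, star p.2)) * s2 := by
      intro l
      induction l with
      | nil => intro _; simp [ev]
      | cons p l ih =>
        intro h
        have h1 := ih fun q hq => h q (List.mem_cons_of_mem _ hq)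
        have h2 := lett_star p.1 (im_ne (h p (by simp)))
        have e1 : ev (p :: l) = lett p.1 p.2 * ev l := by simp [ev]
        have e2 : ev ((p :: l).map fun p => (p.1, star p.2)) =
            lett p.1 (star p.2) * ev (l.map fun p => (p.1, star p.2)) := by simp [ev]
        rw [e1, e2, ← mul_assoc, h2, mul_assoc, h1, mul_assoc]
    exact this l hl.2

theorem NF.lett {x : Perm T} (h : NF x) (b : Bool) {z : GaussianInt} (hz : z ≠ 0) :
    NF (lett b z * x) := by
  obtain ⟨l, hl, h⟩ := h
  obtain ⟨l', hl', e⟩ := ev_lett b hz hl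
  refine ⟨l', hl', ?_⟩
  rcases h with rfl | rfl
  · exact Or.inl e
  · right
    rw [← mul_assoc, e]

theorem NF.s2 {x : Perm T} (h : NF x) : NF (s2 * x) := by
  obtain ⟨l, hl, h⟩ := h
  obtain ⟨l', hl', e⟩ := ev_s2 l hl
  refine ⟨l', hl', ?_⟩
  rcases h with rfl | rfl
  · exact Or.inr e
  · left
    rw [← mul_assoc, e, mul_assoc, s2_sq, mul_one]

/-- the generators -/
def K : Set (Perm T) := {x | x = s2 ∨ ∃ (b : Bool) (z : GaussianInt), z ≠ 0 ∧ x = lett b z}

theorem nf_closure {x : Perm T} (hx : x ∈ Subgroup.closure K) : NF x := by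
  induction hx using Subgroup.closure_induction_left with
  | one => exact ⟨[], ⟨List.isChain_nil, by simp⟩, Or.inl (by simp [ev])⟩
  | mul_left x hx y hy ih =>
    rcases hx with rfl | ⟨b, z, hz, rfl⟩
    · exact ih.s2
    · exact ih.lett b hz
  | inv_mul_cancel x hx y hy ih =>
    rcases hx with rfl | ⟨b, z, hz, rfl⟩
    · have : s2⁻¹ = s2 := inv_eq_of_mul_eq_one_right s2_sq
      rw [this]
      exact ih.s2
    · rw [lett_inv b hz]
      exact ih.lett b (star_ne hz)

end Pool.Agent.H17RL
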