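import Pool.Agent.H17RL.Top

/-! The inverse of a bijection of the circle which is continuous outside a finite set is continuous
outside a finite set. -/

set_option autoImplicit false

namespace Pool.Agent.H17RL

open Set Filter Topology

theorem open_at {f : S → S} (hf : Function.Injective f) {x : S}
    (h : ∀ᶠ y in 𝓝 x, ContinuousAt f y) : 𝓝 (f x) ≤ map f (𝓝 x) := by
  obtain ⟨x0, hx0⟩ := QuotientAddGroup.mk_surjective x
  obtain ⟨b0, hb0⟩ := QuotientAddGroup.mk_surjective (f x)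
  -- a point different from `f x`
  obtain ⟨a, ha⟩ : ∃ a : ℝ, f x ≠ (a : S) := by
    refine ⟨b0 + 1 / 2, ?_⟩
    intro hc
    rw [← hb0] at hc
    have h1 := (AddCircle.coe_eq_coe_iff_of_mem_Ico (p := (1 : ℝ)) (a := b0) (x := b0)
      (y := b0 + 1 / 2) ⟨le_rfl, by linarith⟩ ⟨by linarith, by linarith⟩).1 hc
    linarith
  let e := AddCircle.openPartialHomeomorphCoe (1 : ℝ) a
  have hcoe : ∀ t : ℝ, t ∈ e.source → e t = (t : S) := fun t _ => rfl
  have htar : f x ∈ e.target := ha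
  have hten : Tendsto (fun t : ℝ => (t : S)) (𝓝 x0) (𝓝 x) := by
    rw [← hx0]
    exact (AddCircle.continuous_mk' (1 : ℝ)).continuousAt
  have hcx : ContinuousAt f x := h.self_of_nhds
  have h1 : ∀ᶠ y in 𝓝 x, f y ∈ e.target := hcx (e.open_target.mem_nhds htar)
  have h2 : ∀ᶠ t : ℝ in 𝓝 x0, ContinuousAt f (t : S) ∧ f (t : S) ∈ e.target :=
    hten.eventually (h.and h1)
  obtain ⟨ε, hε, hε2⟩ := Metric.eventually_nhds_iff.1 h2
  obtain ⟨r, hr⟩ : ∃ r, r = min ε (1 / 4) := ⟨_, rfl⟩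
  have hr0 : 0 < r := by rw [hr]; exact lt_min hε (by norm_num)
  have hr1 : r ≤ 1 / 4 := by rw [hr]; exact min_le_right _ _
  have hball : ∀ t ∈ Ioo (x0 - r) (x0 + r), ContinuousAt f (t : S) ∧ f (t : S) ∈ e.target := by
    intro t ht
    apply hε2
    rw [Real.dist_eq, abs_lt]
    have : r ≤ ε := by rw [hr]; exact min_le_left _ _
    constructor <;> linarith [ht.1, ht.2]
  obtain ⟨g, hg⟩ : ∃ g : ℝ → ℝ, g = fun t : ℝ => e.symm (f (t : S)) := ⟨_, rfl⟩
  have hgc : ∀ t ∈ Ioo (x0 - r) (x0 + r), ContinuousAt g t := by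
    intro t ht
    rw [hg]
    have k1 : ContinuousAt e.symm (f (t : S)) := e.continuousAt_symm (hball t ht).2
    have k2 : ContinuousAt (fun t : ℝ => f (t : S)) t :=
      (hball t ht).1.comp (AddCircle.continuous_mk' (1 : ℝ)).continuousAt
    exact ContinuousAt.comp (f := fun t : ℝ => f (t : S)) k1 k2
  have hginj : InjOn g (Ioo (x0 - r) (x0 + r)) := by
    intro t ht t' ht' htt
    rw [hg] at htt
    have k1 := e.symm.injOn (hball t ht).2 (hball t' ht').2 htt
    have k2 := hf k1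
    exact (AddCircle.coe_eq_coe_iff_of_mem_Ico (p := (1 : ℝ)) (a := x0 - r) (x := t)
      (y := t') ⟨ht.1.le, by linarith [ht.2]⟩ ⟨ht'.1.le, by linarith [ht'.2]⟩).1 k2
  have hmono := ContinuousOn.strictMonoOn_of_injOn_Ioo (by linarith : x0 - r < x0 + r)
    (fun t ht => (hgc t ht).continuousWithinAt) hginj
  intro V hV
  have hV1 : ∀ᶠ y in 𝓝 x, f y ∈ V := hV
  obtain ⟨δ, hδ, hδ2⟩ := Metric.eventually_nhds_iff.1 (hten.eventually hV1)
  obtain ⟨d, hd⟩ : ∃ d, d = min (δ / 2) (r / 2) := ⟨_, rfl⟩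
  have hd0 : 0 < d := by rw [hd]; exact lt_min (by linarith) (by linarith)
  have hd1 : d ≤ δ / 2 := by rw [hd]; exact min_le_left _ _
  have hd2 : d ≤ r / 2 := by rw [hd]; exact min_le_right _ _
  have hsub : Icc (x0 - d) (x0 + d) ⊆ Ioo (x0 - r) (x0 + r) := by
    intro t ht
    constructor <;> linarith [ht.1, ht.2]
  have hVt : ∀ t ∈ Icc (x0 - d) (x0 + d), f (t : S) ∈ V := by
    intro t ht
    apply hδ2
    rw [Real.dist_eq, abs_lt]
    constructor <;> linarith [ht.1, ht.2]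
  have hgcI : ContinuousOn g (Icc (x0 - d) (x0 + d)) := fun t ht =>
    (hgc t (hsub ht)).continuousWithinAt
  have m1 : x0 - d ∈ Ioo (x0 - r) (x0 + r) := by constructor <;> linarith
  have m2 : x0 + d ∈ Ioo (x0 - r) (x0 + r) := by constructor <;> linarith
  have m0 : x0 ∈ Ioo (x0 - r) (x0 + r) := by constructor <;> linarith
  -- the image is a neighbourhood
  obtain ⟨W, hW, hWsub⟩ : ∃ W ∈ 𝓝 (g x0), W ⊆ g '' Icc (x0 - d) (x0 + d) := by
    rcases hmono with hm | hm
    · refine ⟨Icc (g (x0 - d)) (g (x0 + d)), Icc_mem_nhds (hm m1 m0 (by linarith))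
        (hm m0 m2 (by linarith)), intermediate_value_Icc (by linarith) hgcI⟩
    · refine ⟨Icc (g (x0 + d)) (g (x0 - d)), Icc_mem_nhds (hm m0 m2 (by linarith))
        (hm m1 m0 (by linarith)), intermediate_value_Icc' (by linarith) hgcI⟩
  have hgx : g x0 = e.symm (f x) := by rw [hg]; simp only [← hx0]
  rw [hgx] at hW
  have k3 : ∀ᶠ y in 𝓝 (f x), e.symm y ∈ W := (e.continuousAt_symm htar) hW
  filter_upwards [k3, e.open_target.mem_nhds htar] with y hy1 hy2
  obtain ⟨t, ht, hty⟩ := hWsub hy1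
  rw [hg] at hty
  have k4 := e.symm.injOn (hball t (hsub ht)).2 hy2 hty
  rw [← k4]
  exact hVt t ht

theorem inv_nc {f : Equiv.Perm S} (h : {y | ¬ ContinuousAt f y}.Finite) :
    {y | ¬ ContinuousAt f.symm y}.Finite := by
  refine (h.image f).subset ?_
  intro y hy
  refine ⟨f.symm y, ?_, f.apply_symm_apply y⟩
  intro hc
  apply hy
  have h1 : ∀ᶠ z in 𝓝 (f.symm y), ContinuousAt f z := by
    have h2 : {y | ¬ ContinuousAt f y}ᶜ ∈ 𝓝 (f.symm y) := by
      apply h.isClosed.isOpen_compl.mem_nhds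
      simpa using hc
    filter_upwards [h2] with z hz
    simpa using hz
  have h3 := open_at f.injective h1
  rw [f.apply_symm_apply] at h3
  intro U hU
  apply h3
  rw [mem_map]
  change {z | f.symm (f z) ∈ U} ∈ 𝓝 (f.symm y)
  simpa using hU

end Pool.Agent.H17RL
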