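import Pool.Agent.H17RL.Ext

/-! Elements of the group with finite support are trivial; comparison of the involutions. -/

set_option autoImplicit false

namespace Pool.Agent.H17RL

open Set Equiv OnePoint Polynomial

/-- the points of the second circle -/
noncomputable def pt (x : P) : T := Sum.inl (split.symm (Sum.inr x))

theorem pt_inj : Function.Injective pt := by
  intro x y h
  unfold pt at h
  rw [Sum.inl.injEq, split.symm.injective.eq_iff, Sum.inr.injEq] at h
  exact h

theorem kap_pt (x : P) : kap (pt x) = pt x := kap_ne (inr_ne x).1 (inr_ne x).2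

theorem kap_inv_pt (x : P) : kap⁻¹ (pt x) = pt x := by
  have := kap_pt x
  calc kap⁻¹ (pt x) = kap⁻¹ (kap (pt x)) := by rw [this]
    _ = pt x := inv_apply _ _

/-- the Möbius transformation of a letter -/
noncomputable def lg (b : Bool) (x : GaussianInt) : G2 := if b then rot (U x) else rotB (U x)

theorem lett_pt (b : Bool) (x : GaussianInt) (y : P) : lett b x (pt y) = pt (lg b x • y) := by
  unfold lett lg
  cases b
  · simp only [Bool.false_eq_true, if_false]
    rw [B2_apply, Perm.mul_apply, Perm.mul_apply, kap_inv_pt]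
    change kap (Sum.inl (cS (B0 (U x)) (split.symm (Sum.inr y)))) = _
    rw [cS_symm, B0_inr]
    exact kap_pt _
  · simp only [if_true]
    change Sum.inl (cS (A0 (U x)) (split.symm (Sum.inr y))) = _
    rw [cS_symm, A0_inr]
    rfl

theorem s2_pt (y : P) : s2 (pt y) = pt (sG • y) := by
  unfold pt
  rw [s2_inl, sA1_inr]

/-- the Möbius transformation of a word -/
noncomputable def wg (l : List (Bool × GaussianInt)) : G2 := (l.map fun p => lg p.1 p.2).prod

theorem ev_pt (l : List (Bool × GaussianInt)) (y : P) : ev l (pt y) = pt (wg l • y) := by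
  induction l with
  | nil => simp [ev, wg]
  | cons p l ih =>
    have e1 : ev (p :: l) = lett p.1 p.2 * ev l := by simp [ev]
    have e2 : wg (p :: l) = lg p.1 p.2 * wg l := by simp [wg]
    rw [e1, e2, Perm.mul_apply, ih, lett_pt, mul_smul]

/-- evaluation at the transcendental number -/
noncomputable def evl : ℤ[X] →+* ℝ := (Polynomial.aeval lam : ℤ[X] →ₐ[ℤ] ℝ).toRingHom

theorem evl_apply (p : ℤ[X]) : evl p = Polynomial.aeval lam p := rfl

theorem evl_inj {p : ℤ[X]} (h : evl p = 0) : p = 0 := by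
  by_contra hp
  exact lam_tr ⟨p, hp, h⟩

theorem rotB_val (u : ℂˣ) : (rotB u : Matrix (Fin 2) (Fin 2) ℝ) =
    !![(u : ℂ).re, -lam * (u : ℂ).im; lam⁻¹ * (u : ℂ).im, (u : ℂ).re] := by
  have h1 : rotB u * hG = hG * rot u := by rw [rotB_apply]; group
  have h2 : (rotB u : Matrix (Fin 2) (Fin 2) ℝ) * (hG : Matrix (Fin 2) (Fin 2) ℝ) =
      !![(u : ℂ).re, -lam * (u : ℂ).im; lam⁻¹ * (u : ℂ).im, (u : ℂ).re] *
        (hG : Matrix (Fin 2) (Fin 2) ℝ) := by
    rw [← Units.val_mul, h1, Units.val_mul, rot_val]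
    change !![lam, 0; 0, 1] * _ = _ * !![lam, 0; 0, 1]
    have := lam_ne
    rw [Matrix.mul_fin_two, Matrix.mul_fin_two]
    congr 1
    simp only [mul_zero, zero_mul, add_zero, zero_add, mul_one, one_mul]
    have e1 : lam * (u : ℂ).re = (u : ℂ).re * lam := mul_comm _ _
    have e2 : (u : ℂ).im = lam⁻¹ * (u : ℂ).im * lam := by field_simp
    have e3 : lam * -(u : ℂ).im = -lam * (u : ℂ).im := by ring
    rw [e1, e3, ← e2]
  exact (Units.mul_left_inj hG).1 h2

theorem lg_val (b : Bool) {x : GaussianInt} (hx : x ≠ 0) : ∃ c : ℝ, c ≠ 0 ∧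
    (lg b x : Matrix (Fin 2) (Fin 2) ℝ) = c • (lm b x).map evl := by
  have e1 : ((U x : ℂˣ) : ℂ).re = (x.re : ℝ) := by rw [U_val hx, GaussianInt.intCast_re]
  have e2 : ((U x : ℂˣ) : ℂ).im = (x.im : ℝ) := by rw [U_val hx, GaussianInt.intCast_im]
  cases b with
  | true =>
    refine ⟨1, one_ne_zero, ?_⟩
    have e3 : lg true x = rot (U x) := rfl
    rw [e3, rot_val, e1, e2, one_smul]
    ext i j
    fin_cases i <;> fin_cases j <;> simp [lm, evl_apply]
  | false =>
    refine ⟨lam⁻¹, inv_ne_zero lam_ne, ?_⟩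
    have e3 : lg false x = rotB (U x) := rfl
    have := lam_ne
    rw [e3, rotB_val, e1, e2]
    ext i j
    fin_cases i <;> fin_cases j <;> simp [lm, evl_apply] <;> field_simp

theorem wg_val (l : List (Bool × GaussianInt)) (h : ∀ p ∈ l, p.2.im ≠ 0) : ∃ c : ℝ, c ≠ 0 ∧
    (wg l : Matrix (Fin 2) (Fin 2) ℝ) = c • (wm l).map evl := by
  induction l with
  | nil =>
    refine ⟨1, one_ne_zero, ?_⟩
    have e1 : wg [] = 1 := by simp [wg]
    have e2 : wm [] = 1 := by simp [wm]
    rw [e1, e2, one_smul, Matrix.map_one _ (map_zero _) (map_one _), Units.val_one]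
  | cons p l ih =>
    obtain ⟨c, hc, e⟩ := ih fun q hq => h q (List.mem_cons_of_mem _ hq)
    obtain ⟨c', hc', e'⟩ := lg_val p.1 (im_ne (h p (by simp)))
    refine ⟨c' * c, mul_ne_zero hc' hc, ?_⟩
    have e1 : wg (p :: l) = lg p.1 p.2 * wg l := by simp [wg]
    have e2 : wm (p :: l) = lm p.1 p.2 * wm l := by simp [wm]
    rw [e1, e2, Units.val_mul, e, e', Matrix.map_mul, Matrix.smul_mul, Matrix.mul_smul, smul_smul]

/-- the transformation of a nonempty reduced word is not diagonal with entries of equal squares -/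
theorem wg_not (l : List (Bool × GaussianInt)) (h : Red l) (hl : l ≠ []) :
    ¬ (wg l 0 1 = 0 ∧ wg l 1 0 = 0 ∧ wg l 0 0 ^ 2 = wg l 1 1 ^ 2) := by
  obtain ⟨c, hc, e⟩ := wg_val l h.2
  rintro ⟨h1, h2, h3⟩
  rw [e] at h1 h2 h3
  simp only [Matrix.smul_apply, Matrix.map_apply, smul_eq_mul] at h1 h2 h3
  refine not_diag l h hl ⟨evl_inj ?_, evl_inj ?_, ?_⟩
  · exact (mul_eq_zero.1 h1).resolve_left hc
  · exact (mul_eq_zero.1 h2).resolve_left hc
  · rw [← sub_eq_zero]
    apply evl_inj
    rw [map_sub, map_pow, map_pow]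
    rw [mul_pow, mul_pow] at h3
    have := mul_left_cancel₀ (pow_ne_zero 2 hc) h3
    linarith

/-- a Möbius transformation with infinitely many fixed points -/
theorem scalar_of_inf {M : G2} (h : {x : ℝ | M • (x : P) = x}.Infinite) :
    M 1 0 = 0 ∧ M 0 1 = 0 ∧ M 0 0 = M 1 1 := by
  have hq : (C (M 1 0) * X ^ 2 + C (M 1 1 - M 0 0) * X + C (-M 0 1) : ℝ[X]) = 0 := by
    apply Polynomial.eq_zero_of_infinite_isRoot
    refine h.mono ?_
    intro x hx
    simp only [mem_ofPred_eq] at hx ⊢
    rw [OnePoint.smul_some_eq_ite] at hx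
    split_ifs at hx with hc
    · exact absurd hx (OnePoint.infty_ne_coe _)
    · rw [OnePoint.coe_eq_coe, div_eq_iff hc] at hx
      simp only [IsRoot.def, eval_add, eval_mul, eval_C, eval_pow, eval_X]
      linarith
  have h0 := congrArg (fun p => coeff p 0) hq
  have h1 := congrArg (fun p => coeff p 1) hq
  have h2 := congrArg (fun p => coeff p 2) hq
  simp [coeff_X, coeff_C, coeff_X_pow] at h0 h1 h2
  exact ⟨h2, h0, by linarith⟩

/-- almost all points of the second circle are fixed -/
theorem inf_of_fin {x : Perm T} (h : {y : S | x (Sum.inl y) ≠ Sum.inl y}.Finite) {M : G2}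
    (hM : ∀ y, x (pt y) = pt (M • y)) : {y : ℝ | M • (y : P) = y}.Infinite := by
  have h1 : {y : ℝ | ¬ M • (y : P) = y}.Finite := by
    have := h.preimage (f := fun y : ℝ => split.symm (Sum.inr (y : P))) (by
      intro a _ b _ hab
      simpa using hab)
    refine this.subset ?_
    intro y hy
    change x (pt (y : P)) ≠ pt (y : P)
    rw [hM]
    exact fun hc => hy (pt_inj hc)
  exact Set.Finite.infinite_compl h1 |>.mono (by
    intro y hy
    simpa using hy)

/-- **Elements with finite support are trivial.** -/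
theorem trivial_of_fin {x : Perm T} (hx : x ∈ Subgroup.closure K)
    (h : {y : S | x (Sum.inl y) ≠ Sum.inl y}.Finite) : x = 1 := by
  obtain ⟨l, hl, hx⟩ := nf_closure hx
  rcases hx with rfl | rfl
  · have h1 := scalar_of_inf (inf_of_fin h (ev_pt l))
    by_cases hne : l = []
    · subst hne; simp [ev]
    · exact absurd ⟨h1.2.1, h1.1, by rw [h1.2.2]⟩ (wg_not l hl hne)
  · have hM : ∀ y, (ev l * s2) (pt y) = pt ((wg l * sG) • y) := by
      intro y
      rw [Perm.mul_apply, s2_pt, ev_pt, mul_smul]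
    have h1 := scalar_of_inf (inf_of_fin h hM)
    have hval : ∀ i j, (wg l * sG : G2) i j = ((wg l : Matrix (Fin 2) (Fin 2) ℝ) *
        (!![-1, 0; 0, 1] : Matrix (Fin 2) (Fin 2) ℝ)) i j := fun i j => rfl
    simp only [hval, Matrix.mul_apply, Fin.sum_univ_two, Matrix.of_apply, Matrix.cons_val',
      Matrix.cons_val_zero, Matrix.cons_val_one, Matrix.cons_val_fin_one, mul_zero, add_zero,
      zero_add, mul_one, mul_neg, neg_eq_zero] at h1
    exfalso
    by_cases hne : l = []
    · subst hne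
      have e1 : (wg [] : G2) = 1 := by simp [wg]
      rw [e1] at h1
      have h2 := h1.2.2
      simp at h2
      linarith
    · exact wg_not l hl hne ⟨h1.2.1, h1.1, by rw [← h1.2.2]; ring⟩

/-- the two involutions are not conjugate -/
theorem not_conj (φ φ' : Perm S) (h : φ * sA1 * φ⁻¹ = φ' * sB1 * φ'⁻¹) : False := by
  classical
  obtain ⟨ψ, hψ⟩ : ∃ ψ : Perm S, ψ = φ'⁻¹ * φ := ⟨_, rfl⟩
  have h1 : ψ * sA1 = sB1 * ψ := by
    rw [hψ]
    calc φ'⁻¹ * φ * sA1 = φ'⁻¹ * (φ * sA1 * φ⁻¹) * φ := by group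
      _ = sB1 * (φ'⁻¹ * φ) := by rw [h]; group
  -- the fixed points of `sA1`
  have hf : ∀ y : S, sA1 y = y → sB1 (ψ y) = ψ y := by
    intro y hy
    have := congrArg (fun f : Perm S => f y) h1
    simp only [Perm.mul_apply] at this
    rw [← this, hy]
  obtain ⟨q2, h2⟩ : ∃ q2 : S, q2 = split.symm (Sum.inr ((0 : ℝ) : P)) := ⟨_, rfl⟩
  obtain ⟨q3, h3⟩ : ∃ q3 : S, q3 = split.symm (Sum.inr ∞) := ⟨_, rfl⟩
  have f2 : sA1 q2 = q2 := by rw [h2, sA1_inr, sG_smul_coe, neg_zero]
  have f3 : sA1 q3 = q3 := by rw [h3, sA1_inr, sG_smul_infty]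
  -- the fixed points of `sB1`
  have hB : ∀ y : S, sB1 y = y → y = q2 ∨ y = q3 := by
    intro y
    induction y using split_ind with
    | h0 => intro hy; rw [sB1_zero] at hy; exact absurd hy.symm q_ne
    | h1 => intro hy; rw [sB1_inf] at hy; exact absurd hy q_ne
    | h2 x hx =>
      intro hy
      rw [sB1_coe hx, split.symm.injective.eq_iff, Sum.inl.injEq, OnePoint.coe_eq_coe] at hy
      exact absurd (by linarith : x = 0) hx
    | h3 x =>
      intro hy
      rw [sB1_inr, split.symm.injective.eq_iff, Sum.inr.injEq] at hy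
      induction x using OnePoint.rec with
      | infty => right; exact h3.symm
      | coe x =>
        left
        rw [sG_smul_coe, OnePoint.coe_eq_coe] at hy
        have : x = 0 := by linarith
        rw [h2, this]
  have n02 : q0 ≠ q2 := by rw [h2]; exact (inr_ne _).1.symm
  have n12 : q1 ≠ q2 := by rw [h2]; exact (inr_ne _).2.symm
  have r0 := hB _ (hf q0 sA1_zero)
  have r1 := hB _ (hf q1 sA1_inf)
  have r2 := hB _ (hf q2 f2)
  have i01 : ψ q0 ≠ ψ q1 := fun hc => q_ne (ψ.injective hc)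
  have i02 : ψ q0 ≠ ψ q2 := fun hc => n02 (ψ.injective hc)
  have i12 : ψ q1 ≠ ψ q2 := fun hc => n12 (ψ.injective hc)
  rcases r0 with r0 | r0 <;> rcases r1 with r1 | r1 <;> rcases r2 with r2 | r2 <;>
    first
    | exact i01 (r0.trans r1.symm)
    | exact i02 (r0.trans r2.symm)
    | exact i12 (r1.trans r2.symm)

/-- the two involutions agree off two points -/
theorem near_s : Near sA1 sB1 := by
  refine ((Set.finite_singleton q1).insert q0).subset ?_
  intro y
  induction y using split_ind with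
  | h0 => intro _; left; rfl
  | h1 => intro _; right; rfl
  | h2 x hx => intro h; exact absurd (by rw [sA1_coe, sB1_coe hx]) h
  | h3 x => intro h; exact absurd (by rw [sA1_inr, sB1_inr]) h

theorem free_A : Free2 (A1 (U z1)) (A1 (U z2)) := by
  refine ⟨?_, ?_⟩
  · rw [← map_mul, ← map_mul, mul_comm]
  · intro m n y h
    rw [← map_zpow, ← map_zpow, ← map_mul] at h
    have h1 := A1_free h
    rw [Units.val_mul, Units.val_zpow_eq_zpow_val, Units.val_zpow_eq_zpow_val, U_val z1_ne,
      U_val z2_ne] at h1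
    exact indep h1

theorem free_B : Free2 (B1 (U z1)) (B1 (U z2)) := by
  refine ⟨?_, ?_⟩
  · rw [← map_mul, ← map_mul, mul_comm]
  · intro m n y h
    rw [← map_zpow, ← map_zpow, ← map_mul] at h
    have h1 := B1_free h
    rw [Units.val_mul, Units.val_zpow_eq_zpow_val, Units.val_zpow_eq_zpow_val, U_val z1_ne,
      U_val z2_ne] at h1
    exact indep h1

end Pool.Agent.H17RL
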