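import Mathlib

/-! Bijections that are continuous outside finite sets. -/

set_option autoImplicit false

namespace Pool.Agent.H17RL

open Set Filter Topology OnePoint

section gen

variable {Y Z W : Type*} [TopologicalSpace Y] [TopologicalSpace Z] [TopologicalSpace W]

/-- `e` and its inverse are continuous outside finite sets -/
def PE (e : Y ≃ Z) : Prop :=
  {y | ¬ ContinuousAt e y}.Finite ∧ {z | ¬ ContinuousAt e.symm z}.Finite

theorem nc_comp {f : Y → Z} {g : Z → W} (hf : {y | ¬ ContinuousAt f y}.Finite)
    (hg : {y | ¬ ContinuousAt g y}.Finite) (hi : Function.Injective f) :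
    {y | ¬ ContinuousAt (g ∘ f) y}.Finite := by
  refine (hf.union (hg.preimage hi.injOn)).subset ?_
  intro y hy
  by_contra hcon
  simp only [mem_union, mem_ofPred_eq, mem_preimage, not_or, not_not] at hcon
  exact hy (hcon.2.comp hcon.1)

theorem PE.trans {e : Y ≃ Z} {f : Z ≃ W} (he : PE e) (hf : PE f) : PE (e.trans f) := by
  refine ⟨?_, ?_⟩
  · have := nc_comp he.1 hf.1 e.injective
    exact this
  · have := nc_comp hf.2 he.2 f.symm.injective
    exact this

theorem PE.symm {e : Y ≃ Z} (he : PE e) : PE e.symm := ⟨he.2, by simpa using he.1⟩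

theorem PE.refl : PE (Equiv.refl Y) := by
  refine ⟨?_, ?_⟩
  · convert Set.finite_empty (α := Y)
    ext y
    simp only [mem_ofPred_eq, mem_empty_iff_false, iff_false, not_not]
    exact continuousAt_id
  · convert Set.finite_empty (α := Y)
    ext y
    simp only [mem_ofPred_eq, mem_empty_iff_false, iff_false, not_not]
    exact continuousAt_id

theorem PE.of_homeo (e : Y ≃ₜ Z) : PE e.toEquiv := by
  refine ⟨?_, ?_⟩
  · convert Set.finite_empty (α := Y)
    ext y
    simp only [mem_ofPred_eq, mem_empty_iff_false, iff_false, not_not]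
    exact e.continuous.continuousAt
  · convert Set.finite_empty (α := Z)
    ext y
    simp only [mem_ofPred_eq, mem_empty_iff_false, iff_false, not_not]
    exact e.symm.continuous.continuousAt

theorem cat_inl {f : Y ⊕ W → Z} {y : Y} (h : ContinuousAt (fun t => f (Sum.inl t)) y) :
    ContinuousAt f (Sum.inl y) := by
  unfold ContinuousAt
  rw [nhds_inl, tendsto_map'_iff]
  exact h

theorem cat_inr {f : Y ⊕ W → Z} {y : W} (h : ContinuousAt (fun t => f (Sum.inr t)) y) :
    ContinuousAt f (Sum.inr y) := by
  unfold ContinuousAt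
  rw [nhds_inr, tendsto_map'_iff]
  exact h

theorem nc_sum {V : Type*} [TopologicalSpace V] {f : Y → Z} {g : W → V}
    (hf : {y | ¬ ContinuousAt f y}.Finite) (hg : {y | ¬ ContinuousAt g y}.Finite) :
    {y | ¬ ContinuousAt (Sum.map f g) y}.Finite := by
  refine ((hf.image Sum.inl).union (hg.image Sum.inr)).subset ?_
  rintro (y | y) hy
  · left
    refine ⟨y, ?_, rfl⟩
    intro hc
    apply hy
    refine cat_inl ?_
    exact (continuous_inl.continuousAt).comp hc
  · right
    refine ⟨y, ?_, rfl⟩
    intro hc
    apply hy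
    refine cat_inr ?_
    exact (continuous_inr.continuousAt).comp hc

theorem PE.sum {V : Type*} [TopologicalSpace V] {e : Y ≃ Z} {f : W ≃ V} (he : PE e) (hf : PE f) :
    PE (Equiv.sumCongr e f) := ⟨nc_sum he.1 hf.1, nc_sum he.2 hf.2⟩

theorem PE.sumComm : PE (Equiv.sumComm Y Z) := by
  refine ⟨?_, ?_⟩
  · convert Set.finite_empty (α := Y ⊕ Z)
    ext y
    simp only [mem_ofPred_eq, mem_empty_iff_false, iff_false, not_not]
    exact continuous_sum_swap.continuousAt
  · convert Set.finite_empty (α := Z ⊕ Y)
    ext y
    simp only [mem_ofPred_eq, mem_empty_iff_false, iff_false, not_not]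
    exact continuous_sum_swap.continuousAt

/-- a map on the one-point compactification of `ℝ` -/
theorem nc_onePoint {f : OnePoint ℝ → Z} (D : Set ℝ) (hD : D.Finite)
    (h : ∀ x : ℝ, x ∉ D → ContinuousAt (fun t : ℝ => f (t : OnePoint ℝ)) x) :
    {y | ¬ ContinuousAt f y}.Finite := by
  refine ((hD.image (fun x : ℝ => (x : OnePoint ℝ))).insert ∞).subset ?_
  intro y hy
  induction y using OnePoint.rec with
  | infty => left; rfl
  | coe x =>
    right
    refine ⟨x, ?_, rfl⟩
    by_contra hx
    apply hy
    rw [OnePoint.continuousAt_coe]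
    exact h x hx

end gen

/-- the projective line -/
abbrev P := OnePoint ℝ

/-- Möbius transformations -/
noncomputable def mob (M : Matrix.GeneralLinearGroup (Fin 2) ℝ) : Equiv.Perm P := MulAction.toPerm M

theorem mob_nc (M : Matrix.GeneralLinearGroup (Fin 2) ℝ) :
    {y | ¬ ContinuousAt (fun x : P => M • x) y}.Finite := by
  refine nc_onePoint {x : ℝ | M 1 0 * x + M 1 1 = 0} ?_ ?_
  · have hdet := M.det_ne_zero
    rw [Matrix.det_fin_two] at hdet
    by_cases h : M 1 0 = 0
    · have h1 : M 1 1 ≠ 0 := by
        intro h1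
        apply hdet
        rw [h1, h]; ring
      convert Set.finite_empty (α := ℝ)
      ext x
      simp [h, h1]
    · refine (Set.finite_singleton (-M 1 1 / M 1 0)).subset ?_
      intro x hx
      simp only [mem_ofPred_eq] at hx
      rw [mem_singleton_iff]
      field_simp
      linarith
  · intro x hx
    simp only [mem_ofPred_eq] at hx
    have h1 : (fun t : ℝ => ((((M 0 0 * t + M 0 1) / (M 1 0 * t + M 1 1) : ℝ)) : P)) =ᶠ[𝓝 x]
        fun t : ℝ => M • (t : P) := by
      have h2 : ∀ᶠ t in 𝓝 x, M 1 0 * t + M 1 1 ≠ 0 := by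
        have : ContinuousAt (fun t : ℝ => M 1 0 * t + M 1 1) x := by fun_prop
        exact this.eventually_ne hx
      filter_upwards [h2] with t ht
      rw [OnePoint.smul_some_eq_ite, if_neg ht]
    refine ContinuousAt.congr ?_ h1
    refine (OnePoint.continuous_coe.continuousAt).comp ?_
    refine ContinuousAt.div (by fun_prop) (by fun_prop) hx

theorem mob_pe (M : Matrix.GeneralLinearGroup (Fin 2) ℝ) : PE (mob M) :=
  ⟨mob_nc M, mob_nc M⁻¹⟩

open Classical in
/-- the line cut at `0` and `∞` into two circles -/
noncomputable def cut : P ≃ P ⊕ P where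
  toFun := fun p => p.elim (Sum.inr ∞) fun x =>
    if x = 0 then Sum.inl ∞ else if 0 < x then Sum.inl (Real.log x : P)
      else Sum.inr (Real.log (-x) : P)
  invFun := Sum.elim (fun p => p.elim ((0 : ℝ) : P) fun x => ((Real.exp x : ℝ) : P))
    (fun p => p.elim ∞ fun x => ((-Real.exp x : ℝ) : P))
  left_inv := by
    intro p
    induction p using OnePoint.rec with
    | infty => simp
    | coe x =>
      by_cases h0 : x = 0
      · subst h0; simp
      · by_cases h1 : 0 < x
        · simp [h0, h1, Real.exp_log h1]
        · have h2 : 0 < -x := by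
            rcases lt_or_gt_of_ne h0 with h | h
            · linarith
            · exact absurd h h1
          simp only [OnePoint.elim_some, if_neg h0, if_neg h1, Sum.elim_inr, Real.exp_log h2,
            neg_neg]
  right_inv := by
    rintro (p | p)
    · induction p using OnePoint.rec with
      | infty => simp
      | coe x =>
        simp [(Real.exp_pos x).ne', Real.exp_pos x]
    · induction p using OnePoint.rec with
      | infty => simp
      | coe x =>
        have h1 : ¬ (0 < -Real.exp x) := by have := Real.exp_pos x; linarith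
        have h2 : -Real.exp x ≠ 0 := by have := Real.exp_pos x; linarith
        simp only [Sum.elim_inr, OnePoint.elim_some, if_neg h2, if_neg h1, neg_neg, Real.log_exp]

theorem cut_infty : cut ∞ = Sum.inr ∞ := rfl

theorem cut_zero : cut ((0 : ℝ) : P) = Sum.inl ∞ := by
  simp [cut]

theorem cut_pos {x : ℝ} (hx : 0 < x) : cut (x : P) = Sum.inl (Real.log x : P) := by
  simp [cut, hx, hx.ne']

theorem cut_neg {x : ℝ} (hx : x < 0) : cut (x : P) = Sum.inr (Real.log (-x) : P) := by
  simp [cut, hx.ne, hx.not_gt]

theorem cut_pe : PE cut := by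
  constructor
  · refine nc_onePoint {0} (Set.finite_singleton _) ?_
    intro x hx
    rw [mem_singleton_iff] at hx
    rcases lt_or_gt_of_ne hx with h | h
    · have h1 : (fun t : ℝ => (Sum.inr (Real.log (-t) : P) : P ⊕ P)) =ᶠ[𝓝 x]
          fun t : ℝ => cut (t : P) := by
        filter_upwards [Iio_mem_nhds h] with t ht
        rw [cut_neg ht]
      refine ContinuousAt.congr ?_ h1
      refine (continuous_inr.continuousAt).comp ((OnePoint.continuous_coe.continuousAt).comp ?_)
      exact (Real.continuousAt_log (by linarith : -x ≠ 0)).comp (by fun_prop)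
    · have h1 : (fun t : ℝ => (Sum.inl (Real.log t : P) : P ⊕ P)) =ᶠ[𝓝 x]
          fun t : ℝ => cut (t : P) := by
        filter_upwards [Ioi_mem_nhds h] with t ht
        rw [cut_pos ht]
      refine ContinuousAt.congr ?_ h1
      refine (continuous_inl.continuousAt).comp ((OnePoint.continuous_coe.continuousAt).comp ?_)
      exact Real.continuousAt_log h.ne'
  · have h1 : {y : P | ¬ ContinuousAt (fun t : P => cut.symm (Sum.inl t)) y}.Finite := by
      refine nc_onePoint ∅ Set.finite_empty ?_
      intro x _
      change ContinuousAt (fun t : ℝ => ((Real.exp t : ℝ) : P)) x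
      exact (OnePoint.continuous_coe.continuousAt).comp (Real.continuous_exp.continuousAt)
    have h2 : {y : P | ¬ ContinuousAt (fun t : P => cut.symm (Sum.inr t)) y}.Finite := by
      refine nc_onePoint ∅ Set.finite_empty ?_
      intro x _
      change ContinuousAt (fun t : ℝ => ((-Real.exp t : ℝ) : P)) x
      exact (OnePoint.continuous_coe.continuousAt).comp (Real.continuous_exp.neg.continuousAt)
    refine ((h1.image Sum.inl).union (h2.image Sum.inr)).subset ?_
    rintro (y | y) hy
    · left
      refine ⟨y, ?_, rfl⟩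
      intro hc
      apply hy
      exact cat_inl hc
    · right
      refine ⟨y, ?_, rfl⟩
      intro hc
      apply hy
      exact cat_inr hc

/-- the circle -/
abbrev S := AddCircle (1 : ℝ)

theorem mem_ico (x : ℝ) : 1 / 2 + Real.arctan x / Real.pi ∈ Ico (0 : ℝ) (0 + 1) := by
  have h1 := Real.arctan_lt_pi_div_two x
  have h2 := Real.neg_pi_div_two_lt_arctan x
  have h3 := Real.pi_pos
  constructor
  · have : -(1 / 2) < Real.arctan x / Real.pi := by
      rw [lt_div_iff₀ h3]; linarith
    linarith
  · have : Real.arctan x / Real.pi < 1 / 2 := by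
      rw [div_lt_iff₀ h3]; linarith
    linarith

theorem zero_mem_ico : (0 : ℝ) ∈ Ico (0 : ℝ) (0 + 1) := by norm_num

open Classical in
/-- the map from the half-open interval -/
noncomputable def icoF (y : Ico (0 : ℝ) (0 + 1)) : P :=
  if (y : ℝ) = 0 then ∞ else (Real.tan (Real.pi * ((y : ℝ) - 1 / 2)) : P)

/-- the map to the half-open interval -/
noncomputable def icoG (p : P) : Ico (0 : ℝ) (0 + 1) :=
  p.elim ⟨0, zero_mem_ico⟩ fun x => ⟨1 / 2 + Real.arctan x / Real.pi, mem_ico x⟩

theorem icoG_inf : icoG ∞ = ⟨0, zero_mem_ico⟩ := rfl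

theorem icoG_coe (x : ℝ) : icoG (x : P) = ⟨1 / 2 + Real.arctan x / Real.pi, mem_ico x⟩ := rfl

/-- the half-open interval and the projective line -/
noncomputable def ico : Ico (0 : ℝ) (0 + 1) ≃ P where
  toFun := icoF
  invFun := icoG
  left_inv := by
    intro y
    unfold icoF
    by_cases h : (y : ℝ) = 0
    · rw [if_pos h, icoG_inf]
      exact Subtype.ext h.symm
    · rw [if_neg h, icoG_coe]
      apply Subtype.ext
      have h1 := y.2.1
      have h2 := y.2.2
      have h3 : 0 < (y : ℝ) := lt_of_le_of_ne h1 (Ne.symm h)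
      have h4 : (y : ℝ) < 1 := by linarith
      have hpi := Real.pi_pos
      change 1 / 2 + Real.arctan (Real.tan (Real.pi * ((y : ℝ) - 1 / 2))) / Real.pi = y
      rw [Real.arctan_tan (by nlinarith) (by nlinarith)]
      field_simp
      ring
  right_inv := by
    intro p
    unfold icoF
    induction p using OnePoint.rec with
    | infty => rw [icoG_inf]; simp
    | coe x =>
      have h2 := Real.neg_pi_div_two_lt_arctan x
      have h3 := Real.pi_pos
      have h4 : 1 / 2 + Real.arctan x / Real.pi ≠ 0 := by
        have : -(1 / 2) < Real.arctan x / Real.pi := by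
          rw [lt_div_iff₀ h3]; linarith
        linarith
      rw [icoG_coe, if_neg h4]
      congr 1
      have : Real.pi * (1 / 2 + Real.arctan x / Real.pi - 1 / 2) = Real.arctan x := by
        field_simp
        ring
      rw [this, Real.tan_arctan]

theorem ico_pe : PE ico := by
  constructor
  · refine (Set.finite_singleton (⟨0, by norm_num⟩ : Ico (0 : ℝ) (0 + 1))).subset ?_
    intro y hy
    by_contra hne
    apply hy
    have h0 : (y : ℝ) ≠ 0 := fun hc => hne (Subtype.ext hc)
    have h1 : (fun t : Ico (0 : ℝ) (0 + 1) => (Real.tan (Real.pi * ((t : ℝ) - 1 / 2)) : P)) =ᶠ[𝓝 y]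
        ico := by
      have : ∀ᶠ t : Ico (0 : ℝ) (0 + 1) in 𝓝 y, (t : ℝ) ≠ 0 :=
        (continuous_subtype_val.continuousAt).eventually_ne h0
      filter_upwards [this] with t ht
      change _ = if (t : ℝ) = 0 then ∞ else _
      rw [if_neg ht]
    refine ContinuousAt.congr ?_ h1
    refine (OnePoint.continuous_coe.continuousAt).comp ?_
    have h3 : 0 < (y : ℝ) := lt_of_le_of_ne y.2.1 (Ne.symm h0)
    have h4 : (y : ℝ) < 1 := by linarith [y.2.2]
    have hpi := Real.pi_pos
    have hcos : Real.cos (Real.pi * ((y : ℝ) - 1 / 2)) ≠ 0 :=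
      (Real.cos_pos_of_mem_Ioo ⟨by nlinarith, by nlinarith⟩).ne'
    exact (Real.continuousAt_tan.2 hcos).comp (f := fun t : Ico (0 : ℝ) (0 + 1) =>
      Real.pi * ((t : ℝ) - 1 / 2)) (by fun_prop)
  · refine nc_onePoint ∅ Set.finite_empty ?_
    intro x _
    have : Continuous (fun t : ℝ => ico.symm (t : P)) := by
      refine Continuous.subtype_mk (f := fun t : ℝ => 1 / 2 + Real.arctan t / Real.pi) ?_ _
      exact continuous_const.add (Real.continuous_arctan.div_const _)
    exact this.continuousAt

/-- the circle and the projective line -/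
noncomputable def circ : S ≃ P := (AddCircle.equivIco (1 : ℝ) 0).trans ico

theorem circ_pe : PE circ := by
  refine PE.trans ?_ ico_pe
  constructor
  · refine (Set.finite_singleton ((0 : ℝ) : S)).subset ?_
    intro y hy
    by_contra hne
    exact hy (AddCircle.continuousAt_equivIco 1 0 hne)
  · convert Set.finite_empty (α := Ico (0 : ℝ) (0 + 1))
    ext y
    simp only [mem_ofPred_eq, mem_empty_iff_false, iff_false, not_not]
    exact (AddCircle.continuous_equivIco_symm 1 0).continuousAt

/-- the circle as two projective lines -/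
noncomputable def split : S ≃ P ⊕ P := circ.trans cut

theorem split_pe : PE split := circ_pe.trans cut_pe

end Pool.Agent.H17RL
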